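import Pool.Graph.R_pool_sql_team_seeded_64922ed1.X23.CS5

/-!
Sign sequences whose products `p (n + i) ...` over the nonempty even subsets of `{0, 1, 2, 3}` have small
exponential sums: exponential sums and autocorrelations.
-/

set_option autoImplicit false

open Finset

namespace Pool.Agent.Helper87.Q

open Pool.Agent.X23.CS (e norm_e e_add hat G abs_G_le sum_G sum_GG sum_shift shift_Ico cs abs_cs_le cs_eq)

/-- the exponential sums of `F` over the intervals below `R` are at most `D` -/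
def Sml (F : ℕ → ℝ) (R : ℕ) (D : ℝ) : Prop :=
  ∀ (t : ℝ) (Y X : ℕ), X ≤ R → ‖hat (Ico Y X) (fun n => ((F n : ℝ) : ℂ)) t‖ ≤ D

/-- the four kinds of products -/
structure Sm4 (p : ℕ → ℝ) (R : ℕ) (D : ℝ) : Prop where
  one : Sml (fun n => p n * p (n + 1)) R D
  two : Sml (fun n => p n * p (n + 2)) R D
  three : Sml (fun n => p n * p (n + 3)) R D
  four : Sml (fun n => p n * p (n + 1) * p (n + 2) * p (n + 3)) R D

lemma hat_shift (F : ℕ → ℂ) (Y X i : ℕ) (t : ℝ) :
    ‖hat (Ico Y X) (fun n => F (n + i)) t‖ = ‖hat (Ico (Y + i) (X + i)) F t‖ := by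
  have h1 : hat (Ico (Y + i) (X + i)) F t = e (t * i) * hat (Ico Y X) (fun n => F (n + i)) t := by
    unfold hat
    rw [← map_add_right_Ico, sum_map, mul_sum]
    refine sum_congr rfl fun n _ => ?_
    simp only [addRightEmbedding_apply]
    have : e (t * ((n + i : ℕ) : ℝ)) = e (t * i) * e (t * n) := by
      rw [← e_add]
      congr 1
      push_cast
      ring
    rw [this]
    ring
  rw [h1, norm_mul, norm_e, one_mul]

lemma Sml.shift {F : ℕ → ℝ} {R : ℕ} {D : ℝ} (h : Sml F (R + 3) D) (i : ℕ) (hi : i ≤ 3) :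
    Sml (fun n => F (n + i)) R D := by
  intro t Y X hX
  have h1 := hat_shift (fun n => ((F n : ℝ) : ℂ)) Y X i t
  have h2 := h t (Y + i) (X + i) (by omega)
  rw [← h1] at h2
  exact h2

/-- the pairs -/
lemma Sm4.pair {p : ℕ → ℝ} {R : ℕ} {D : ℝ} (h : Sm4 p (R + 3) D) (i j : ℕ) (hij : i < j) (hj : j ≤ 3) :
    Sml (fun n => p (n + i) * p (n + j)) R D := by
  have h1 : ∀ d : ℕ, j = i + d → (fun n => p (n + i) * p (n + j)) = fun n => p (n + i) * p (n + i + d) := by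
    intro d hd
    funext n
    rw [hd, add_assoc]
  have h2 : j - i = 1 ∨ j - i = 2 ∨ j - i = 3 := by omega
  rcases h2 with h2 | h2 | h2
  · rw [h1 1 (by omega)]
    exact h.one.shift i (by omega)
  · rw [h1 2 (by omega)]
    exact h.two.shift i (by omega)
  · rw [h1 3 (by omega)]
    exact h.three.shift i (by omega)

lemma Sml.mono {F : ℕ → ℝ} {R R' : ℕ} {D : ℝ} (h : Sml F R D) (hR : R' ≤ R) : Sml F R' D :=
  fun t Y X hX => h t Y X (hX.trans hR)

/-- the polynomial inequality -/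
lemma poly_ineq (a b c d : ℝ) (ha : |a| ≤ 1) (hb : |b| ≤ 1) (hc : |c| ≤ 1) (hd : |d| ≤ 1) :
    a + b + c + d ≤ 3 / 2 + (a * b + a * c + a * d + b * c + b * d + c * d) / 2 - a * b * c * d / 2 := by
  have a1 : 0 ≤ 1 - a := by linarith [(abs_le.mp ha).2]
  have a2 : 0 ≤ 1 + a := by linarith [(abs_le.mp ha).1]
  have b1 : 0 ≤ 1 - b := by linarith [(abs_le.mp hb).2]
  have b2 : 0 ≤ 1 + b := by linarith [(abs_le.mp hb).1]
  have c1 : 0 ≤ 1 - c := by linarith [(abs_le.mp hc).2]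
  have c2 : 0 ≤ 1 + c := by linarith [(abs_le.mp hc).1]
  have d1 : 0 ≤ 1 - d := by linarith [(abs_le.mp hd).2]
  have d2 : 0 ≤ 1 + d := by linarith [(abs_le.mp hd).1]
  have e0 : 0 ≤ (1 - a) * (1 - b) * (1 - c) * (1 - d) := by positivity
  have e1 : 0 ≤ (1 + a) * (1 - b) * (1 - c) * (1 - d) := by positivity
  have e2 : 0 ≤ (1 - a) * (1 + b) * (1 - c) * (1 - d) := by positivity
  have e3 : 0 ≤ (1 - a) * (1 - b) * (1 + c) * (1 - d) := by positivity
  have e4 : 0 ≤ (1 - a) * (1 - b) * (1 - c) * (1 + d) := by positivity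
  nlinarith

/-- the absolute value of a sum of four signs -/
lemma abs_four (a b c d : ℝ) (ha : a = 1 ∨ a = -1) (hb : b = 1 ∨ b = -1) (hc : c = 1 ∨ c = -1)
    (hd : d = 1 ∨ d = -1) : |a + b + c + d| =
      3 / 2 + (a * b + a * c + a * d + b * c + b * d + c * d) / 2 - a * b * c * d / 2 := by
  rcases ha with rfl | rfl <;> rcases hb with rfl | rfl <;> rcases hc with rfl | rfl <;>
    rcases hd with rfl | rfl <;> norm_num [abs_of_nonneg, abs_of_neg]

/-- sums over an interval of a function and of its shifts -/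
lemma sum_four (f : ℕ → ℝ) (B : ℝ) (hf : ∀ n, |f n| ≤ B) (hB : 0 < B) (Y X : ℕ) :
    4 * ∑ n ∈ Ico Y X, f n ≤ ∑ n ∈ Ico Y X, (f n + f (n + 1) + f (n + 2) + f (n + 3)) + 12 * B := by
  have hg : ∀ n, |f n / B| ≤ 1 := by
    intro n
    rw [abs_div, abs_of_pos hB, div_le_one hB]
    exact hf n
  have s1 := shift_Ico (fun n => f n / B) hg Y X 1
  have s2 := shift_Ico (fun n => f n / B) hg Y X 2
  have s3 := shift_Ico (fun n => f n / B) hg Y X 3
  push_cast at s1 s2 s3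
  have t : ∀ i : ℕ, ∑ n ∈ Ico Y X, f (n + i) / B = (∑ n ∈ Ico Y X, f (n + i)) / B := by
    intro i
    rw [sum_div]
  have t0 : ∑ n ∈ Ico Y X, f n / B = (∑ n ∈ Ico Y X, f n) / B := by
    rw [sum_div]
  rw [t, t0, ← sub_div, abs_div, abs_of_pos hB, div_le_iff₀ hB] at s1 s2 s3
  rw [sum_add_distrib, sum_add_distrib, sum_add_distrib]
  have h1 := (abs_le.mp s1).1
  have h2 := (abs_le.mp s2).1
  have h3 := (abs_le.mp s3).1
  linarith

/-! ### exponential sums -/

lemma hat_mul_cs {A : Finset ℕ} {F : ℕ → ℂ} {D : ℝ} (h : ∀ t, ‖hat A F t‖ ≤ D) (α θ : ℝ) (t : ℝ) :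
    ‖hat A (fun n => F n * ((cs α θ n : ℝ) : ℂ)) t‖ ≤ D := by
  have h1 : hat A (fun n => F n * ((cs α θ n : ℝ) : ℂ)) t =
      e θ / 2 * hat A F (t + α) + e (-θ) / 2 * hat A F (t - α) := by
    unfold hat
    rw [mul_sum, mul_sum, ← sum_add_distrib]
    refine sum_congr rfl fun n _ => ?_
    have e1 : e ((t + α) * n) = e (α * n) * e (t * n) := by rw [← e_add]; congr 1; ring
    have e2 : e ((t - α) * n) = e (-α * n) * e (t * n) := by rw [← e_add]; congr 1; ring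
    beta_reduce
    rw [cs_eq, e1, e2]
    ring
  rw [h1]
  refine (norm_add_le _ _).trans ?_
  rw [norm_mul, norm_mul, norm_div, norm_div, norm_e, norm_e]
  have h2 := h (t + α)
  have h3 := h (t - α)
  simp only [Complex.norm_ofNat]
  linarith

lemma hat_zero_real (A : Finset ℕ) (F : ℕ → ℝ) : ‖hat A (fun n => ((F n : ℝ) : ℂ)) 0‖ = |∑ n ∈ A, F n| := by
  have : hat A (fun n => ((F n : ℝ) : ℂ)) 0 = ((∑ n ∈ A, F n : ℝ) : ℂ) := by
    unfold hat
    push_cast
    refine sum_congr rfl fun n _ => ?_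
    rw [zero_mul, Pool.Agent.X23.CS.e_zero, mul_one]
  rw [this, Complex.norm_real, Real.norm_eq_abs]

/-- the phase of a complex number -/
lemma phase (S : ℂ) : ∃ θ : ℝ, e θ * S = ((‖S‖ : ℝ) : ℂ) := by
  refine ⟨-(S.arg) / (2 * Real.pi), ?_⟩
  have h1 : e (-(S.arg) / (2 * Real.pi)) = Complex.exp (-(S.arg) * Complex.I) := by
    unfold e
    congr 1
    have : (Real.pi : ℂ) ≠ 0 := by exact_mod_cast Real.pi_ne_zero
    push_cast
    field_simp
  have h2 := Complex.norm_mul_exp_arg_mul_I S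
  have h3 : Complex.exp (-(S.arg) * Complex.I) * Complex.exp (S.arg * Complex.I) = 1 := by
    rw [← Complex.exp_add]
    have : -(S.arg : ℂ) * Complex.I + (S.arg : ℂ) * Complex.I = 0 := by ring
    rw [this, Complex.exp_zero]
  calc e (-(S.arg) / (2 * Real.pi)) * S =
      Complex.exp (-(S.arg) * Complex.I) * (‖S‖ * Complex.exp (S.arg * Complex.I)) := by
        rw [h1, h2]
    _ = (Complex.exp (-(S.arg) * Complex.I) * Complex.exp (S.arg * Complex.I)) * ‖S‖ := by ring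
    _ = ((‖S‖ : ℝ) : ℂ) := by rw [h3, one_mul]

/-- **exponential sums**: at most three eighths -/
theorem expo (p : ℕ → ℝ) (hp : ∀ n, p n = 1 ∨ p n = -1) (R : ℕ) (D : ℝ) (hD : Sm4 p (R + 3) D)
    (Y X : ℕ) (hYX : Y ≤ X) (hX : X ≤ R) (α : ℝ) :
    ‖hat (Ico Y X) (fun n => ((p n : ℝ) : ℂ)) α‖ ≤ 3 / 8 * ((X : ℝ) - Y) + D + 3 := by
  have hp1 : ∀ n, |p n| ≤ 1 := by
    intro n
    rcases hp n with h | h <;> rw [h] <;> norm_num
  set S : ℂ := hat (Ico Y X) (fun n => ((p n : ℝ) : ℂ)) α with hS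
  obtain ⟨θ, hθ⟩ := phase S
  have hre : ∑ n ∈ Ico Y X, p n * cs α θ n = ‖S‖ := by
    have h1 : (e θ * S).re = ‖S‖ := by rw [hθ]; exact Complex.ofReal_re _
    rw [← h1, hS, hat, mul_sum, Complex.re_sum]
    refine sum_congr rfl fun n _ => ?_
    have h2 : e θ * (((p n : ℝ) : ℂ) * e (α * n)) = ((p n : ℝ) : ℂ) * e (α * n + θ) := by
      rw [e_add]; ring
    rw [h2, Complex.re_ofReal_mul]
    congr 1
    unfold cs e
    have h3 : (2 * Real.pi * ((α * n + θ : ℝ) : ℂ) * Complex.I : ℂ) =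
        ((2 * Real.pi * (α * n + θ) : ℝ) : ℂ) * Complex.I := by
      push_cast; ring
    rw [h3, Complex.exp_ofReal_mul_I_re]
  have hcs : ∀ (n i : ℕ), cs α θ (n + i) = cs α (α * i + θ) n := by
    intro n i
    unfold cs
    congr 1
    push_cast
    ring
  set f : ℕ → ℝ := fun n => p n * cs α θ n with hf
  have hf1 : ∀ n, |f n| ≤ 1 := by
    intro n
    rw [hf, abs_mul]
    exact mul_le_one₀ (hp1 n) (abs_nonneg _) (abs_cs_le _ _ _)
  have h4 := sum_four f 1 hf1 one_pos Y X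
  have hpair : ∀ i j : ℕ, i < j → j ≤ 3 → |∑ n ∈ Ico Y X, f (n + i) * f (n + j)| ≤ D := by
    intro i j hij hj
    have h1 := hat_mul_cs (hat_mul_cs (fun t => hD.pair i j hij hj t Y X hX) α (α * i + θ)) α (α * j + θ) 0
    have h2 : (fun n : ℕ => (((p (n + i) * p (n + j) : ℝ) : ℂ) * ((cs α (α * i + θ) n : ℝ) : ℂ)) *
        ((cs α (α * j + θ) n : ℝ) : ℂ)) = fun n : ℕ => ((f (n + i) * f (n + j) : ℝ) : ℂ) := by
      funext n
      simp only [hf]
      rw [hcs, hcs]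
      push_cast
      ring
    rw [h2, hat_zero_real] at h1
    exact h1
  have hfour : |∑ n ∈ Ico Y X, f (n + 0) * f (n + 1) * f (n + 2) * f (n + 3)| ≤ D := by
    have h1 := hat_mul_cs (hat_mul_cs (hat_mul_cs (hat_mul_cs
      (fun t => (hD.four.mono (by omega : R ≤ R + 3)) t Y X hX) α (α * (0 : ℕ) + θ)) α (α * (1 : ℕ) + θ))
      α (α * (2 : ℕ) + θ)) α (α * (3 : ℕ) + θ) 0
    have h2 : (fun n : ℕ => (((((p n * p (n + 1) * p (n + 2) * p (n + 3) : ℝ) : ℂ) *
        ((cs α (α * (0 : ℕ) + θ) n : ℝ) : ℂ)) * ((cs α (α * (1 : ℕ) + θ) n : ℝ) : ℂ)) *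
        ((cs α (α * (2 : ℕ) + θ) n : ℝ) : ℂ)) * ((cs α (α * (3 : ℕ) + θ) n : ℝ) : ℂ)) =
        fun n : ℕ => ((f (n + 0) * f (n + 1) * f (n + 2) * f (n + 3) : ℝ) : ℂ) := by
      funext n
      simp only [hf]
      rw [hcs, hcs, hcs, hcs]
      push_cast
      ring_nf
    rw [h2, hat_zero_real] at h1
    exact h1
  have hsum : ∑ n ∈ Ico Y X, (f n + f (n + 1) + f (n + 2) + f (n + 3)) ≤
      3 / 2 * ((X : ℝ) - Y) + 7 / 2 * D := by
    have h1 : ∀ n ∈ Ico Y X, f n + f (n + 1) + f (n + 2) + f (n + 3) ≤ 3 / 2 +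
        (f (n + 0) * f (n + 1) + f (n + 0) * f (n + 2) + f (n + 0) * f (n + 3) + f (n + 1) * f (n + 2) +
          f (n + 1) * f (n + 3) + f (n + 2) * f (n + 3)) / 2 -
        (f (n + 0) * f (n + 1) * f (n + 2) * f (n + 3)) / 2 := by
      intro n _
      exact poly_ineq _ _ _ _ (hf1 _) (hf1 _) (hf1 _) (hf1 _)
    refine (sum_le_sum h1).trans ?_
    rw [sum_sub_distrib, sum_add_distrib, ← sum_div, ← sum_div, ← sum_div, sum_add_distrib, sum_add_distrib,
      sum_add_distrib, sum_add_distrib, sum_add_distrib, sum_const, Nat.card_Ico, nsmul_eq_mul,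
      Nat.cast_sub hYX]
    have a1 := (abs_le.mp (hpair 0 1 (by norm_num) (by norm_num))).2
    have a2 := (abs_le.mp (hpair 0 2 (by norm_num) (by norm_num))).2
    have a3 := (abs_le.mp (hpair 0 3 (by norm_num) (by norm_num))).2
    have a4 := (abs_le.mp (hpair 1 2 (by norm_num) (by norm_num))).2
    have a5 := (abs_le.mp (hpair 1 3 (by norm_num) (by norm_num))).2
    have a6 := (abs_le.mp (hpair 2 3 (by norm_num) (by norm_num))).2
    have a7 := (abs_le.mp hfour).1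
    generalize ∑ n ∈ Ico Y X, f (n + 0) * f (n + 1) = z1 at *
    generalize ∑ n ∈ Ico Y X, f (n + 0) * f (n + 2) = z2 at *
    generalize ∑ n ∈ Ico Y X, f (n + 0) * f (n + 3) = z3 at *
    generalize ∑ n ∈ Ico Y X, f (n + 1) * f (n + 2) = z4 at *
    generalize ∑ n ∈ Ico Y X, f (n + 1) * f (n + 3) = z5 at *
    generalize ∑ n ∈ Ico Y X, f (n + 2) * f (n + 3) = z6 at *
    generalize ∑ n ∈ Ico Y X, f (n + 0) * f (n + 1) * f (n + 2) * f (n + 3) = z7 at *
    linarith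
  have hD0 : 0 ≤ D := (norm_nonneg _).trans (hD.one 0 0 0 (Nat.zero_le _))
  rw [hre] at h4
  linarith

end Pool.Agent.Helper87.Q
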