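import Pool.Agent.Helper87.Q.Abs

/-!
Autocorrelations of sign sequences: the bound one quarter for the average over a set of lengths.
-/

set_option autoImplicit false

open Finset

namespace Pool.Agent.Helper87.Q

open Pool.Agent.X23.CS (e norm_e e_add hat G abs_G_le sum_G sum_GG sum_shift shift_Ico cs abs_cs_le cs_eq)

/-- shifts of a function bounded by one -/
lemma sum_four' (f : ℕ → ℝ) (hf : ∀ n, |f n| ≤ 1) (Y X : ℕ) :
    |∑ n ∈ Ico Y X, (f n + f (n + 1) + f (n + 2) + f (n + 3)) - 4 * ∑ n ∈ Ico Y X, f n| ≤ 12 := by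
  have h1 := sum_four f 1 hf one_pos Y X
  have h2 := sum_four (fun n => - f n) 1 (fun n => by rw [abs_neg]; exact hf n) one_pos Y X
  have e1 : ∑ n ∈ Ico Y X, (- f n + - f (n + 1) + - f (n + 2) + - f (n + 3)) =
      - ∑ n ∈ Ico Y X, (f n + f (n + 1) + f (n + 2) + f (n + 3)) := by
    rw [← sum_neg_distrib]
    refine sum_congr rfl fun n _ => ?_
    ring
  have e2 : ∑ n ∈ Ico Y X, - f n = - ∑ n ∈ Ico Y X, f n := sum_neg_distrib _
  rw [e1, e2] at h2
  rw [abs_le]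
  constructor <;> linarith

/-- the basic inequality, with the cross terms -/
lemma basic4 (p g : ℕ → ℝ) (hp : ∀ n, p n = 1 ∨ p n = -1) (hg : ∀ n, |g n| ≤ 1) (Y X r : ℕ)
    (hYX : Y ≤ X) :
    4 * |∑ n ∈ Ico Y X, p (n + r) * g n| ≤ 24 + (((X : ℝ) - Y) + 4 * ∑ n ∈ Ico Y X, g n ^ 2) / 2 +
      (|∑ n ∈ Ico Y X, p (n + r) * p (n + r + 1) * (g n * g (n + 1))| +
       |∑ n ∈ Ico Y X, p (n + r) * p (n + r + 2) * (g n * g (n + 2))| +
       |∑ n ∈ Ico Y X, p (n + r) * p (n + r + 3) * (g n * g (n + 3))| +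
       |∑ n ∈ Ico Y X, p (n + r + 1) * p (n + r + 2) * (g (n + 1) * g (n + 2))| +
       |∑ n ∈ Ico Y X, p (n + r + 1) * p (n + r + 3) * (g (n + 1) * g (n + 3))| +
       |∑ n ∈ Ico Y X, p (n + r + 2) * p (n + r + 3) * (g (n + 2) * g (n + 3))|) := by
  have hp1 : ∀ n, |p n| ≤ 1 := by
    intro n
    rcases hp n with h | h <;> rw [h] <;> norm_num
  have hp2 : ∀ n, p n ^ 2 = 1 := by
    intro n
    rcases hp n with h | h <;> rw [h] <;> norm_num
  set V : ℕ → ℝ := fun n => p (n + r) * g n + p (n + r + 1) * g (n + 1) +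
    p (n + r + 2) * g (n + 2) + p (n + r + 3) * g (n + 3) with hV
  have hb : ∀ n, |p (n + r) * g n| ≤ 1 := by
    intro n
    rw [abs_mul]
    exact mul_le_one₀ (hp1 _) (abs_nonneg _) (hg _)
  have hb2 : ∀ n, |g n ^ 2| ≤ 1 := by
    intro n
    rw [abs_pow]
    exact pow_le_one₀ (abs_nonneg _) (hg _)
  have s1 := sum_four' (fun n => p (n + r) * g n) hb Y X
  have s2 := sum_four' (fun n => g n ^ 2) hb2 Y X
  have hVsum : ∑ n ∈ Ico Y X, V n = ∑ n ∈ Ico Y X, (p (n + r) * g n + p (n + 1 + r) * g (n + 1) +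
      p (n + 2 + r) * g (n + 2) + p (n + 3 + r) * g (n + 3)) := by
    refine sum_congr rfl fun n _ => ?_
    simp only [hV]
    have e1 : n + r + 1 = n + 1 + r := by ring
    have e2 : n + r + 2 = n + 2 + r := by ring
    have e3 : n + r + 3 = n + 3 + r := by ring
    rw [e1, e2, e3]
  have hVsq : ∑ n ∈ Ico Y X, V n ^ 2 =
      ∑ n ∈ Ico Y X, (g n ^ 2 + g (n + 1) ^ 2 + g (n + 2) ^ 2 + g (n + 3) ^ 2) +
      2 * (∑ n ∈ Ico Y X, p (n + r) * p (n + r + 1) * (g n * g (n + 1)) +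
       ∑ n ∈ Ico Y X, p (n + r) * p (n + r + 2) * (g n * g (n + 2)) +
       ∑ n ∈ Ico Y X, p (n + r) * p (n + r + 3) * (g n * g (n + 3)) +
       ∑ n ∈ Ico Y X, p (n + r + 1) * p (n + r + 2) * (g (n + 1) * g (n + 2)) +
       ∑ n ∈ Ico Y X, p (n + r + 1) * p (n + r + 3) * (g (n + 1) * g (n + 3)) +
       ∑ n ∈ Ico Y X, p (n + r + 2) * p (n + r + 3) * (g (n + 2) * g (n + 3))) := by
    rw [← sum_add_distrib, ← sum_add_distrib, ← sum_add_distrib, ← sum_add_distrib,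
      ← sum_add_distrib, mul_sum, ← sum_add_distrib]
    refine sum_congr rfl fun n _ => ?_
    simp only [hV]
    have e0 := hp2 (n + r)
    have e1 := hp2 (n + r + 1)
    have e2 := hp2 (n + r + 2)
    have e3 := hp2 (n + r + 3)
    generalize p (n + r) = q0 at *
    generalize p (n + r + 1) = q1 at *
    generalize p (n + r + 2) = q2 at *
    generalize p (n + r + 3) = q3 at *
    generalize g n = g0 at *
    generalize g (n + 1) = g1 at *
    generalize g (n + 2) = g2 at *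
    generalize g (n + 3) = g3 at *
    linear_combination g0 ^ 2 * e0 + g1 ^ 2 * e1 + g2 ^ 2 * e2 + g3 ^ 2 * e3
  have hcard : ((Ico Y X).card : ℝ) = (X : ℝ) - Y := by
    rw [Nat.card_Ico, Nat.cast_sub hYX]
  have hup : ∀ τ : ℝ, (τ = 1 ∨ τ = -1) →
      τ * ∑ n ∈ Ico Y X, V n ≤ (((X : ℝ) - Y) + ∑ n ∈ Ico Y X, V n ^ 2) / 2 := by
    intro τ hτ
    have h1 : ∀ n ∈ Ico Y X, τ * V n ≤ (1 + V n ^ 2) / 2 := by
      intro n _
      rcases hτ with h | h <;> rw [h]
      · nlinarith [sq_nonneg (V n - 1)]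
      · nlinarith [sq_nonneg (V n + 1)]
    rw [mul_sum]
    refine (sum_le_sum h1).trans (le_of_eq ?_)
    rw [← sum_div, sum_add_distrib, sum_const, nsmul_eq_mul, mul_one, hcard]
  have hu1 := hup 1 (Or.inl rfl)
  have hu2 := hup (-1) (Or.inr rfl)
  rw [hVsum, hVsq] at hu1 hu2
  rw [abs_le] at s1 s2
  have a1 := le_abs_self (∑ n ∈ Ico Y X, p (n + r) * p (n + r + 1) * (g n * g (n + 1)))
  have a2 := le_abs_self (∑ n ∈ Ico Y X, p (n + r) * p (n + r + 2) * (g n * g (n + 2)))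
  have a3 := le_abs_self (∑ n ∈ Ico Y X, p (n + r) * p (n + r + 3) * (g n * g (n + 3)))
  have a4 := le_abs_self (∑ n ∈ Ico Y X, p (n + r + 1) * p (n + r + 2) * (g (n + 1) * g (n + 2)))
  have a5 := le_abs_self (∑ n ∈ Ico Y X, p (n + r + 1) * p (n + r + 3) * (g (n + 1) * g (n + 3)))
  have a6 := le_abs_self (∑ n ∈ Ico Y X, p (n + r + 2) * p (n + r + 3) * (g (n + 2) * g (n + 3)))
  rcases abs_cases (∑ n ∈ Ico Y X, p (n + r) * g n) with ⟨g', -⟩ | ⟨g', -⟩ <;> rw [g']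
  · linarith [s1.1, s2.2]
  · linarith [s1.2, s2.2]

/-- **autocorrelations**: the average over a set of lengths is at most one quarter -/
theorem avg_quarter (p : ℕ → ℝ) (hp : ∀ n, p n = 1 ∨ p n = -1) (N : ℕ) (D : ℝ)
    (hD : Sm4 p (2 * N + 1 + 3) D) (K : Finset ℕ) (hK : 0 < K.card) (hKN : K ⊆ range (N + 1))
    (Y X : ℕ) (hYX : Y ≤ X) (hX : X ≤ N) :
    (∑ k ∈ K, |∑ n ∈ Ico Y X, p n * p (n + k)|) / K.card ≤ ((X : ℝ) - Y) / 4 + 12 +
      3 / 2 * (D * ((2 * N + 1 : ℕ) : ℝ) / K.card) +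
      3 / 2 * (D * ((2 * N + 1 : ℕ) : ℝ) ^ 2 / (K.card : ℝ) ^ 2) := by
  have h0 : (0 : ℝ) < K.card := by exact_mod_cast hK
  have hp1 : ∀ n, |p n| ≤ 1 := by
    intro n
    rcases hp n with h | h <;> rw [h] <;> norm_num
  set c : ℕ → ℝ := fun k => ∑ n ∈ Ico Y X, p n * p (n + k) with hc
  set s : ℕ → ℝ := fun k => if 0 ≤ c k then 1 else -1 with hs
  have hs1 : ∀ k, |s k| ≤ 1 := by
    intro k
    simp only [hs]
    split_ifs <;> norm_num
  have hsc : ∀ k, |c k| = s k * c k := by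
    intro k
    simp only [hs]
    split_ifs with h
    · rw [abs_of_nonneg h, one_mul]
    · rw [abs_of_neg (not_le.1 h)]; ring
  set g : ℕ → ℝ := G K s p with hgdef
  have hg : ∀ n, |g n| ≤ 1 := abs_G_le K hK s p hs1 hp1
  set U : ℝ := ∑ n ∈ Ico Y X, g n ^ 2 with hU
  set M : ℝ := ((2 * N + 1 : ℕ) : ℝ) with hM
  have hT : (∑ k ∈ K, |c k|) / K.card = ∑ n ∈ Ico Y X, p n * g n := by
    have h1 : ∀ k ∈ K, |c k| = ∑ n ∈ Ico Y X, p n * (s k * p (n + k)) := by
      intro k _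
      rw [hsc, hc, mul_sum]
      refine sum_congr rfl fun n _ => ?_
      ring
    rw [sum_congr rfl h1, sum_comm, sum_div]
    refine sum_congr rfl fun n _ => ?_
    rw [← mul_sum, mul_div_assoc]
    rfl
  have hUk : U = (∑ k ∈ K, s k * ∑ n ∈ Ico Y X, p (n + k) * g n) / K.card := by
    have h1 : ∀ k ∈ K, s k * ∑ n ∈ Ico Y X, p (n + k) * g n =
        ∑ n ∈ Ico Y X, g n * (s k * p (n + k)) := by
      intro k _
      rw [mul_sum]
      refine sum_congr rfl fun n _ => ?_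
      ring
    rw [sum_congr rfl h1, sum_comm, sum_div]
    refine sum_congr rfl fun n _ => ?_
    rw [← mul_sum, mul_div_assoc, pow_two]
    rfl
  -- the cross terms for the shift 0
  have C : ∀ i j : ℕ, i < j → j ≤ 3 →
      |∑ n ∈ Ico Y X, p (n + i) * p (n + j) * (g (n + i) * g (n + j))| ≤ D * M ^ 2 / (K.card : ℝ) ^ 2 := by
    intro i j hij hj
    have h1 := sum_GG hp1 hs1 hK hKN hX i j (fun n => p (n + i) * p (n + j)) D
      (fun t => hD.pair i j hij hj t Y X (by omega))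
    refine le_trans (le_of_eq ?_) h1
    congr 1
    refine sum_congr rfl fun n _ => ?_
    rw [← mul_assoc]
  have hbase := basic4 p g hp hg Y X 0 hYX
  -- the cross terms for the shifts in `K`
  have hgg : ∀ i j n, |g (n + i) * g (n + j)| ≤ 1 := by
    intro i j n
    rw [abs_mul]
    exact mul_le_one₀ (hg _) (abs_nonneg _) (hg _)
  have S : ∀ i j : ℕ, i < j → j ≤ 3 →
      ∑ k ∈ K, |∑ n ∈ Ico Y X, p (n + k + i) * p (n + k + j) * (g (n + i) * g (n + j))| ≤ D * M := by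
    intro i j hij hj
    refine sum_shift (Y := Y) hKN hX (fun n => g (n + i) * g (n + j)) (hgg i j)
      (fun m => p (m + i) * p (m + j)) D (fun t => ?_)
    rw [range_eq_Ico]
    exact hD.pair i j hij hj t 0 _ (by omega)
  have hk : ∀ k ∈ K, 4 * |∑ n ∈ Ico Y X, p (n + k) * g n| ≤ _ := fun k _ => basic4 p g hp hg Y X k hYX
  have hsumk := sum_le_sum hk
  simp only [← mul_sum, sum_add_distrib, ← sum_div, sum_const, nsmul_eq_mul] at hsumk
  have hUle : U * K.card ≤ ∑ k ∈ K, |∑ n ∈ Ico Y X, p (n + k) * g n| := by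
    rw [hUk, div_mul_cancel₀ _ h0.ne']
    refine sum_le_sum fun k _ => ?_
    refine (le_abs_self _).trans ?_
    rw [abs_mul]
    calc |s k| * _ ≤ 1 * _ := mul_le_mul_of_nonneg_right (hs1 k) (abs_nonneg _)
      _ = _ := one_mul _
  have b1 := S 0 1 (by norm_num) (by norm_num)
  have b2 := S 0 2 (by norm_num) (by norm_num)
  have b3 := S 0 3 (by norm_num) (by norm_num)
  have b4 := S 1 2 (by norm_num) (by norm_num)
  have b5 := S 1 3 (by norm_num) (by norm_num)
  have b6 := S 2 3 (by norm_num) (by norm_num)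
  simp only [add_zero] at b1 b2 b3
  have hU1 : U ≤ ((X : ℝ) - Y) / 4 + 12 + 3 * (D * M / K.card) := by
    have h1 : 4 * (U * K.card) ≤ K.card * 24 + (K.card * ((X : ℝ) - Y) + K.card * (4 * U)) / 2 +
        6 * (D * M) := by
      refine le_trans (mul_le_mul_of_nonneg_left hUle (by norm_num)) (hsumk.trans ?_)
      linarith
    have h2 : U * K.card ≤ (((X : ℝ) - Y) / 4 + 12 + 3 * (D * M / K.card)) * K.card := by
      have h3 : (((X : ℝ) - Y) / 4 + 12 + 3 * (D * M / K.card)) * K.card =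
          K.card * ((X : ℝ) - Y) / 4 + 12 * K.card + 3 * (D * M) := by
        field_simp
      rw [h3]
      linarith
    exact le_of_mul_le_mul_right h2 h0
  have c1 := C 0 1 (by norm_num) (by norm_num)
  have c2 := C 0 2 (by norm_num) (by norm_num)
  have c3 := C 0 3 (by norm_num) (by norm_num)
  have c4 := C 1 2 (by norm_num) (by norm_num)
  have c5 := C 1 3 (by norm_num) (by norm_num)
  have c6 := C 2 3 (by norm_num) (by norm_num)
  simp only [add_zero] at c1 c2 c3 hbase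
  rw [hT]
  have h9 := le_abs_self (∑ n ∈ Ico Y X, p n * g n)
  rw [← hU] at hbase
  linarith

end Pool.Agent.Helper87.Q
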