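import Pool.Graph.R_pool_sql_team_seeded_63374d34.N675.FS.Top
import Pool.Graph.R_seed8.V1213.CH.Equiv
import Pool.Graph.R_seed8.Y304.U.Avc
import Pool.Graph.R_seed8.Y304.U.Pw

/-!
Products of an odd number of shifted values of the Liouville function: all linear phases, at almost all scales.
-/

set_option autoImplicit false

open Finset Filter Topology

namespace Pool.Agent.Helper87.Q

open Pool.Agent.V1213.CH (lam prodLam Sm)
open Pool.Agent.Y958.U (LZ QQ)
open Pool.Agent.Y842.EL (LZ_eps LZ_mono LZ_union LZ_empty)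
open Pool.Agent.N675 (lamA)

/-- the elements of `H` as indices -/
def EH (H : Finset ℕ) : Finset (Fin (H.sup id + 1)) := univ.filter fun j => (j : ℕ) ∈ H

lemma mem_lt (H : Finset ℕ) {x : ℕ} (hx : x ∈ H) : x < H.sup id + 1 := by
  have := le_sup (f := id) hx
  simp only [id] at this
  omega

lemma EH_prod (H : Finset ℕ) (g : ℕ → ℝ) : ∏ j ∈ EH H, g j = ∏ h ∈ H, g h := by
  refine prod_bij (fun j _ => (j : ℕ)) ?_ ?_ ?_ ?_
  · intro j hj
    exact (mem_filter.1 hj).2
  · intro i _ j _ hij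
    exact Fin.ext hij
  · intro x hx
    exact ⟨⟨x, mem_lt H hx⟩, mem_filter.2 ⟨mem_univ _, hx⟩, rfl⟩
  · intro j _
    rfl

lemma EH_card (H : Finset ℕ) : (EH H).card = H.card := by
  refine card_bij (fun j _ => (j : ℕ)) ?_ ?_ ?_
  · intro j hj
    exact (mem_filter.1 hj).2
  · intro i _ j _ hij
    exact Fin.ext hij
  · intro x hx
    exact ⟨⟨x, mem_lt H hx⟩, mem_filter.2 ⟨mem_univ _, hx⟩, rfl⟩

lemma good (H : Finset ℕ) (hH : Odd H.card) (q a : ℕ) :
    Pool.Agent.N675.FS.GoodE (fun (_ : Fin (H.sup id + 1)) (_ : Fin 1) => (q : ℤ))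
      (fun j => (a : ℤ) + (j : ℕ)) (EH H) := by
  have hne : (EH H).Nonempty := by
    rw [← card_pos, EH_card]
    exact hH.pos
  obtain ⟨i₀, hi₀⟩ := hne
  refine ⟨i₀, hi₀, Or.inl ?_⟩
  have : Pool.Agent.N675.FS.cl (fun (_ : Fin (H.sup id + 1)) (_ : Fin 1) => (q : ℤ)) (EH H) i₀ = EH H := by
    unfold Pool.Agent.N675.FS.cl
    rw [filter_true_of_mem]
    intro i _ s s'
    rfl
  rw [this, EH_card]
  exact hH

lemma val (H : Finset ℕ) (q a y : ℕ) :
    ∏ j ∈ EH H, lamA (∑ _s : Fin 1, (q : ℤ) * (y : ℤ) + ((a : ℤ) + (j : ℕ))) =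
      ((prodLam H (q * y + a) : ℤ) : ℝ) := by
  rw [EH_prod H (fun h => lamA (∑ _s : Fin 1, (q : ℤ) * (y : ℤ) + ((a : ℤ) + (h : ℕ))))]
  unfold prodLam
  push_cast
  refine prod_congr rfl fun h _ => ?_
  unfold lamA lam
  rw [Fin.sum_univ_one]
  have e : ((q : ℤ) * (y : ℤ) + ((a : ℤ) + (h : ℕ))).natAbs = q * y + a + h := by
    have : (q : ℤ) * (y : ℤ) + ((a : ℤ) + (h : ℕ)) = ((q * y + a + h : ℕ) : ℤ) := by
      push_cast
      ring
    rw [this, Int.natAbs_natCast]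
  rw [e]
  push_cast
  rfl

/-- one variable: a box is an interval -/
lemma box_one (B : ℕ) (F : ℤ → ℝ) :
    ∑ y ∈ Pool.Agent.N675.FS.bx (fun _ : Fin 1 => (0 : ℤ)) (fun _ => B), F (y 0) =
      ∑ y ∈ Ioc 0 B, F (y : ℤ) := by
  unfold Pool.Agent.N675.FS.bx
  symm
  refine sum_bij (fun (y : ℕ) _ => (fun _ : Fin 1 => (y : ℤ))) ?_ ?_ ?_ ?_
  · intro y hy
    rw [mem_Ioc] at hy
    rw [Fintype.mem_piFinset]
    intro s
    beta_reduce
    rw [mem_Ioc]
    constructor
    · exact_mod_cast hy.1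
    · simpa using hy.2
  · intro x _ y _ hxy
    have := congrFun hxy 0
    exact_mod_cast this
  · intro z hz
    rw [Fintype.mem_piFinset] at hz
    have h0 := hz 0
    beta_reduce at h0
    rw [mem_Ioc] at h0
    refine ⟨(z 0).toNat, ?_, ?_⟩
    · rw [mem_Ioc]
      constructor
      · omega
      · have := h0.2
        omega
    · funext s
      have hs : s = 0 := Subsingleton.elim _ _
      rw [hs]
      show (((z 0).toNat : ℕ) : ℤ) = z 0
      exact Int.toNat_of_nonneg h0.1.le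
  · intro y _
    rfl

/-- the sum over a progression -/
lemma split (q a : ℕ) (hq : 1 ≤ q) (ha : a < q) (K : ℕ) (hK : a ≤ K) (g : ℕ → ℝ) (hg : ∀ n, |g n| ≤ 1) :
    |∑ n ∈ (Icc 1 K).filter (fun n => n % q = a), g n| ≤
      |∑ y ∈ Ioc 0 ((K - a) / q), g (q * y + a)| + 1 := by
  have h1 : ∑ y ∈ Ioc 0 ((K - a) / q), g (q * y + a) =
      ∑ n ∈ (Icc 1 K).filter (fun n => n % q = a ∧ n ≠ a), g n := by
    refine sum_bij (fun y _ => q * y + a) ?_ ?_ ?_ ?_
    · intro y hy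
      rw [mem_Ioc] at hy
      rw [mem_filter, mem_Icc]
      have h2 : q * y ≤ K - a := by
        have := Nat.mul_le_mul_left q hy.2
        exact this.trans (Nat.mul_div_le _ _)
      have h3 : 1 ≤ q * y := Nat.mul_pos hq hy.1
      refine ⟨⟨by omega, by omega⟩, ?_, by omega⟩
      rw [Nat.mul_add_mod, Nat.mod_eq_of_lt ha]
    · intro x _ y _ hxy
      have h2 : q * x = q * y := by
        beta_reduce at hxy
        omega
      exact Nat.eq_of_mul_eq_mul_left hq h2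
    · intro n hn
      rw [mem_filter, mem_Icc] at hn
      obtain ⟨⟨hn1, hn2⟩, hn3, hn4⟩ := hn
      have h2 := Nat.div_add_mod n q
      rw [hn3] at h2
      refine ⟨n / q, ?_, h2⟩
      rw [mem_Ioc]
      constructor
      · rcases Nat.eq_zero_or_pos (n / q) with h0 | h0
        · rw [h0] at h2
          omega
        · exact h0
      · rw [Nat.le_div_iff_mul_le hq]
        rw [mul_comm]
        omega
    · intro y _
      rfl
  have h2 : (Icc 1 K).filter (fun n => n % q = a) ⊆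
      (Icc 1 K).filter (fun n => n % q = a ∧ n ≠ a) ∪ {a} := by
    intro n hn
    rw [mem_filter] at hn
    rw [mem_union, mem_filter, mem_singleton]
    by_cases h : n = a
    · exact Or.inr h
    · exact Or.inl ⟨hn.1, hn.2, h⟩
  have h3 : ∑ n ∈ (Icc 1 K).filter (fun n => n % q = a), g n =
      ∑ n ∈ (Icc 1 K).filter (fun n => n % q = a ∧ n ≠ a), g n +
      ∑ n ∈ (Icc 1 K).filter (fun n => n % q = a ∧ n = a), g n := by
    rw [← sum_filter_add_sum_filter_not ((Icc 1 K).filter (fun n => n % q = a)) (fun n => n ≠ a)]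
    rw [filter_filter, filter_filter]
    congr 1
    refine sum_congr ?_ fun _ _ => rfl
    ext n
    simp
  have h4 : |∑ n ∈ (Icc 1 K).filter (fun n => n % q = a ∧ n = a), g n| ≤ 1 := by
    refine (abs_sum_le_sum_abs _ _).trans ((sum_le_sum fun n _ => hg n).trans ?_)
    rw [sum_const, nsmul_eq_mul, mul_one]
    have h5 : ((Icc 1 K).filter (fun n => n % q = a ∧ n = a)).card ≤ 1 := by
      rw [card_le_one]
      intro x hx y hy
      rw [mem_filter] at hx hy
      rw [hx.2.2, hy.2.2]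
    exact_mod_cast h5
  rw [h3, h1]
  exact (abs_add_le _ _).trans (by linarith)

/-- harmonic sums are unbounded -/
lemma harm_unb (i₀ : ℕ) (T : ℝ) : ∃ i₁ : ℕ, i₀ < i₁ ∧ T < ∑ i ∈ Ico i₀ i₁, (1 : ℝ) / i := by
  have h := Real.tendsto_sum_range_one_div_nat_succ_atTop
  have h1 : Tendsto (fun n : ℕ => ∑ i ∈ range n, (1 : ℝ) / i) atTop atTop := by
    have h2 : (fun n : ℕ => ∑ i ∈ range (n + 1), (1 : ℝ) / i) =
        fun n : ℕ => ∑ i ∈ range n, (1 : ℝ) / (i + 1) := by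
      funext n
      rw [sum_range_succ']
      simp
    rw [← tendsto_add_atTop_iff_nat 1, h2]
    exact h
  obtain ⟨i₁, h3⟩ := (tendsto_atTop.1 h1 (T + ∑ i ∈ range i₀, (1 : ℝ) / i + 1)).exists_forall_of_atTop
  refine ⟨max i₁ (i₀ + 1), by omega, ?_⟩
  have h4 := h3 (max i₁ (i₀ + 1)) (le_max_left _ _)
  have h5 : ∑ i ∈ range (max i₁ (i₀ + 1)), (1 : ℝ) / i =
      ∑ i ∈ range i₀, (1 : ℝ) / i + ∑ i ∈ Ico i₀ (max i₁ (i₀ + 1)), (1 : ℝ) / i := by
    rw [range_eq_Ico, range_eq_Ico, sum_Ico_consecutive _ (Nat.zero_le _) (by omega)]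
  rw [h5] at h4
  linarith

theorem odd_prog (H : Finset ℕ) (hH : Odd H.card) (q a : ℕ) (hq : 1 ≤ q) (ε : ℝ) (hε : 0 < ε) :
    LZ {N : ℕ | ε * N < |∑ n ∈ (Icc 1 N).filter (fun n => n % q = a), (prodLam H n : ℝ)|} := by
  classical
  set Eb : Set ℕ :=
    {N : ℕ | ε * N < |∑ n ∈ (Icc 1 N).filter (fun n => n % q = a), (prodLam H n : ℝ)|} with hEb
  rcases Nat.lt_or_ge a q with ha | ha
  swap
  · refine LZ_mono (F := ∅) ?_ LZ_empty
    intro N hN
    exfalso
    rw [hEb, Set.mem_ofPred_eq, filter_false_of_mem, sum_empty, abs_zero] at hN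
    · have : 0 ≤ ε * N := by positivity
      linarith
    · intro n _ h
      have := Nat.mod_lt n hq
      omega
  by_contra hcon
  obtain ⟨ε₁, hε₁, I₀, havc⟩ := Pool.Agent.Y304.U.avc Pool.Agent.Y304.U.pw Eb ∅ hcon LZ_empty
  obtain ⟨C, hC⟩ := Pool.Agent.N675.FS.lam_cor
    (fun (_ : Fin (H.sup id + 1)) (_ : Fin 1) => (q : ℤ)) (fun j => (a : ℤ) + (j : ℕ))
    (fun j h => by
      have := congrFun h 0
      simp only [Pi.zero_apply] at this
      have : q = 0 := by exact_mod_cast this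
      omega) (EH H) (good H hH q a) (4 * q) (ε / 2) (by positivity)
  set i₀ := max I₀ 1 with hi₀
  obtain ⟨i₁, hi₁, hT⟩ := harm_unb i₀ (3 * (|C| + 1) / ε₁)
  obtain ⟨N₀, hN₀⟩ := hC i₁
  obtain ⟨K₀, hK₀⟩ := exists_nat_ge (2 / ε)
  obtain ⟨M, hM, -, hsum⟩ := havc i₀ i₁ (le_max_left _ _) hi₁
    (max N₀ (max (12 * q * 2 ^ i₁) (2 ^ (i₁ + 1) * (K₀ + q + 1))))
  have hMN : N₀ ≤ M := (le_max_left _ _).trans hM
  have hM1 : 12 * q * 2 ^ i₁ ≤ M := (le_max_left _ _).trans ((le_max_right _ _).trans hM)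
  have hM2 : 2 ^ (i₁ + 1) * (K₀ + q + 1) ≤ M := (le_max_right _ _).trans ((le_max_right _ _).trans hM)
  have hexc := hN₀ M hMN
  set X := Pool.Agent.N675.FS.excC lamA (fun (_ : Fin (H.sup id + 1)) (_ : Fin 1) => (q : ℤ))
    (fun j => (a : ℤ) + (j : ℕ)) (EH H) (4 * q) (ε / 2) i₁ M with hX
  -- a scale with a bad prime is exceptional
  have hkey : ∀ i ∈ Ico i₀ i₁, ∀ p ∈ QQ i, M / p ∈ Eb → i ∈ X := by
    intro i hi p hp hbad
    rw [mem_Ico] at hi
    unfold QQ at hp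
    rw [mem_filter, mem_Ioc] at hp
    obtain ⟨⟨hp1, hp2⟩, hpp⟩ := hp
    have hp0 : 0 < p := hpp.pos
    set K := M / p with hK
    have hKp : p * K ≤ M := Nat.mul_div_le M p
    have hKp2 : M < p * (K + 1) := Nat.lt_mul_div_succ M hp0
    have h2i : 2 ^ (i + 1) ≤ 2 ^ (i₁ + 1) := Nat.pow_le_pow_right (by norm_num) (by omega)
    have h2i' : 2 ^ i ≤ 2 ^ i₁ := Nat.pow_le_pow_right (by norm_num) (by omega)
    have hKbig : K₀ + q + 1 ≤ K := by
      rw [hK, Nat.le_div_iff_mul_le hp0, mul_comm]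
      exact (Nat.mul_le_mul_right _ (hp2.trans h2i)).trans hM2
    set B := (K - a) / q with hB
    have hBle : B ≤ K := (Nat.div_le_self _ _).trans (Nat.sub_le _ _)
    have hBge : K ≤ q * B + 2 * q := by
      have := Nat.lt_mul_div_succ (K - a) hq
      rw [← hB, mul_add, mul_one] at this
      omega
    have hpl : ∀ n, |((prodLam H n : ℤ) : ℝ)| ≤ 1 := by
      intro n
      have := Pool.Agent.V1213.CH.prodLam_norm H n
      rw [Complex.norm_intCast] at this
      exact this.le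
    have h1 := split q a hq ha K (by omega) (fun n => ((prodLam H n : ℤ) : ℝ)) hpl
    rw [hEb, Set.mem_ofPred_eq] at hbad
    have hKr : 2 / ε ≤ K := hK₀.trans (by exact_mod_cast (by omega : K₀ ≤ K))
    rw [div_le_iff₀ hε] at hKr
    have hBr : (B : ℝ) ≤ K := by exact_mod_cast hBle
    have h2' : ε / 2 * B < |∑ y ∈ Ioc 0 B, ((prodLam H (q * y + a) : ℤ) : ℝ)| := by
      have h3 : ε * K - 1 < |∑ y ∈ Ioc 0 B, ((prodLam H (q * y + a) : ℤ) : ℝ)| := by
        have := lt_of_lt_of_le hbad h1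
        linarith
      have h4 : ε / 2 * B ≤ ε / 2 * K := mul_le_mul_of_nonneg_left hBr (by positivity)
      nlinarith
    rw [hX]
    unfold Pool.Agent.N675.FS.excC
    rw [mem_filter, mem_Icc]
    refine ⟨⟨by omega, by omega⟩, fun _ => 0, fun _ => B, ?_, ?_⟩
    · intro s
      refine ⟨by rw [abs_zero, mul_zero]; positivity, ?_, ?_⟩
      · show M ≤ 4 * q * 2 ^ i * B
        have e1 : M < 2 ^ (i + 1) * (K + 1) := lt_of_lt_of_le hKp2 (Nat.mul_le_mul_right _ hp2)
        have e2 : 2 ^ (i + 1) * (K + 1) ≤ 2 ^ (i + 1) * (q * B + 2 * q + 1) :=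
          Nat.mul_le_mul_left _ (by omega)
        have e3 : 2 ^ (i + 1) * (q * B + 2 * q + 1) ≤ 2 ^ (i + 1) * (q * B) + 2 ^ (i + 1) * (3 * q) := by
          rw [← mul_add]
          exact Nat.mul_le_mul_left _ (by omega)
        have e4 : 2 ^ (i + 1) * (3 * q) * 2 ≤ M := by
          calc 2 ^ (i + 1) * (3 * q) * 2 = 12 * q * 2 ^ i := by ring
            _ ≤ 12 * q * 2 ^ i₁ := Nat.mul_le_mul_left _ h2i'
            _ ≤ M := hM1
        have e5 : 2 * (2 ^ (i + 1) * (q * B)) = 4 * q * 2 ^ i * B := by ring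
        omega
      · show 2 ^ i * B ≤ 4 * q * M
        calc 2 ^ i * B ≤ p * K := Nat.mul_le_mul hp1.le hBle
          _ ≤ M := hKp
          _ ≤ 4 * q * M := Nat.le_mul_of_pos_left _ (by omega)
    · rw [Fin.prod_univ_one]
      refine lt_of_lt_of_eq h2' ?_
      congr 1
      have e1 := box_one B (fun y => ∏ j ∈ EH H, lamA (∑ _s : Fin 1, (q : ℤ) * y + ((a : ℤ) + (j : ℕ))))
      simp only [val] at e1
      rw [← e1]
      refine sum_congr rfl fun y _ => prod_congr rfl fun j _ => ?_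
      rw [Fin.sum_univ_one, Fin.sum_univ_one]
  have hfin : ∑ i ∈ Ico i₀ i₁, (1 : ℝ) / i * ∑ p ∈ QQ i, Real.log p / 2 ^ i *
      (if M / p ∈ Eb then 1 else 0) ≤ 3 * ∑ i ∈ X, 1 / (i : ℝ) := by
    have h1 : ∀ i ∈ Ico i₀ i₁, (1 : ℝ) / i * ∑ p ∈ QQ i, Real.log p / 2 ^ i *
        (if M / p ∈ Eb then 1 else 0) ≤ if i ∈ X then 3 * (1 / (i : ℝ)) else 0 := by
      intro i hi
      by_cases hiX : i ∈ X
      · rw [if_pos hiX]
        have h2 : ∑ p ∈ QQ i, Real.log p / 2 ^ i * (if M / p ∈ Eb then (1 : ℝ) else 0) ≤ 3 := by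
          refine (sum_le_sum fun p _ => ?_).trans (Pool.Agent.Y304.U.upp i)
          have : 0 ≤ Real.log p / 2 ^ i := div_nonneg (Real.log_natCast_nonneg p) (by positivity)
          split_ifs
          · rw [mul_one]
          · rw [mul_zero]
            exact this
        have h3 : (0 : ℝ) ≤ 1 / i := by positivity
        nlinarith
      · rw [if_neg hiX]
        have h2 : ∑ p ∈ QQ i, Real.log p / 2 ^ i * (if M / p ∈ Eb then (1 : ℝ) else 0) = 0 := by
          refine sum_eq_zero fun p hp => ?_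
          rw [if_neg, mul_zero]
          intro hb
          exact hiX (hkey i hi p hp hb)
        rw [h2, mul_zero]
    refine (sum_le_sum h1).trans ?_
    rw [← sum_filter, mul_sum]
    refine sum_le_sum_of_subset_of_nonneg ?_ fun i _ _ => by positivity
    intro i hi
    exact (mem_filter.1 hi).2
  have h1 : 3 * (|C| + 1) < ε₁ * ∑ i ∈ Ico i₀ i₁, (1 : ℝ) / i := by
    rw [div_lt_iff₀ hε₁] at hT
    linarith
  have h2 : ∑ i ∈ X, 1 / (i : ℝ) ≤ C := hexc
  have h3 := le_abs_self C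
  linarith

end Pool.Agent.Helper87.Q
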