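import Pool.Agent.Helper87.Q.Grid
import Pool.Agent.Helper87.Q.Odd
import Pool.Graph.R_pool_sql_team_seeded_64922ed1.X23.CS9

/-!
The Liouville function: exponential sums over `λ(n!)` and almost all lengths.
-/

set_option autoImplicit false

open Finset Filter

namespace Pool.Agent.Helper87.Q

open Pool.Agent.X23.CS (e norm_e e_add e_zero hat num au LogDensityZero One Two exceptional pull ap_bound hat_Ico
  prodL sumL prodL_pm P_mul prodL_one prodL_two num_mono au_abs)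
open Pool.Agent.Y842.EL (LZ_union LZ_mono LZ_diag')

/-- the Liouville function, real values -/
noncomputable abbrev lam (n : ℕ) : ℝ := Pool.Agent.X23.CS.lam n

/-- triples of values -/
def Three (E : Set ℕ) : Prop := ∀ d : ℕ, 1 ≤ d → ∀ ε : ℝ, 0 < ε → ∃ N₀ : ℕ, ∀ N : ℕ, N₀ ≤ N → N ∉ E →
  ∀ (α : ℝ) (y : ℕ), y ≤ N →
    ‖∑ n ∈ Icc 1 y, ((lam n * lam (n + d) * lam (n + 2 * d) : ℝ) : ℂ) * e (α * n)‖ ≤ ε * N

theorem three_exc : ∃ E : Set ℕ, LogDensityZero E ∧ Three E := by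
  obtain ⟨F, hF, h⟩ := LZ_diag' (fun t : ℕ × ℕ => {N : ℕ | ∃ α : ℝ, ∃ y ≤ N,
      (1 / ((t.2 : ℝ) + 1)) * N < ‖Pool.Agent.V1213.CH.Sm {0, t.1 + 1, 2 * (t.1 + 1)} y α‖}) (by
    intro t
    have hodd : Odd ({0, t.1 + 1, 2 * (t.1 + 1)} : Finset ℕ).card := by
      rw [card_insert_of_notMem, card_insert_of_notMem, card_singleton]
      · decide
      · simp only [mem_singleton]; omega
      · simp only [mem_insert, mem_singleton]; omega
    exact (Pool.Agent.V1213.CH.equivalence _).1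
      (fun q a hq ε hε => odd_prog _ hodd q a hq ε hε) (1 / ((t.2 : ℝ) + 1)) (by positivity))
  refine ⟨F, hF, fun d hd ε hε => ?_⟩
  obtain ⟨m, hm⟩ := exists_nat_one_div_lt hε
  obtain ⟨N₀, hN₀⟩ := h (d - 1, m)
  refine ⟨N₀, fun N hN hNE α y hy => ?_⟩
  by_contra hcon
  rw [not_le] at hcon
  apply hNE
  refine hN₀ N hN ⟨α, y, hy, ?_⟩
  have hd1 : d - 1 + 1 = d := by omega
  simp only [hd1]
  have h1 : Pool.Agent.V1213.CH.Sm {0, d, 2 * d} y α =
      ∑ n ∈ Icc 1 y, ((lam n * lam (n + d) * lam (n + 2 * d) : ℝ) : ℂ) * e (α * n) := by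
    unfold Pool.Agent.V1213.CH.Sm
    refine sum_congr rfl fun n _ => ?_
    have e1 : ((Pool.Agent.V1213.CH.prodLam {0, d, 2 * d} n : ℤ) : ℂ) =
        ((lam n * lam (n + d) * lam (n + 2 * d) : ℝ) : ℂ) := by
      unfold Pool.Agent.V1213.CH.prodLam
      rw [prod_insert, prod_insert, prod_singleton]
      · unfold Pool.Agent.V1213.CH.lam lam Pool.Agent.X23.CS.lam
        push_cast
        rw [add_zero]
        ring
      · simp only [mem_singleton]; omega
      · simp only [mem_insert, mem_singleton]; omega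
    rw [e1]
    rfl
  rw [h1]
  refine lt_of_le_of_lt ?_ hcon
  exact mul_le_mul_of_nonneg_right hm.le (Nat.cast_nonneg N)

theorem exc3 : ∃ E : Set ℕ, LogDensityZero E ∧ Pool.Agent.X23.CS.One E ∧ Two E ∧ Three E := by
  obtain ⟨E₁, hE₁, h1, h2⟩ := exceptional
  obtain ⟨E₂, hE₂, h3⟩ := three_exc
  refine ⟨E₁ ∪ E₂, LZ_union hE₁ hE₂, ?_, ?_, ?_⟩
  · intro c ε hε
    obtain ⟨N₀, h⟩ := h1 c ε hε
    exact ⟨N₀, fun N hN hNE => h N hN fun hc => hNE (Set.mem_union_left _ hc)⟩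
  · intro d hd ε hε
    obtain ⟨N₀, h⟩ := h2 d hd ε hε
    exact ⟨N₀, fun N hN hNE => h N hN fun hc => hNE (Set.mem_union_left _ hc)⟩
  · intro d hd ε hε
    obtain ⟨N₀, h⟩ := h3 d hd ε hε
    exact ⟨N₀, fun N hN hNE => h N hN fun hc => hNE (Set.mem_union_right _ hc)⟩

theorem prodL_three (a b n : ℕ) : prodL a b 3 n = lam (a * n + b) * lam (a * n + b + a) *
    lam (a * n + b + 2 * a) := by
  unfold prodL
  rw [prod_range_succ, prod_range_succ, prod_range_one, add_zero]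
  have e1 : a * (n + 1) + b = a * n + b + a := by ring
  have e2 : a * (n + 2) + b = a * n + b + 2 * a := by ring
  rw [e1, e2]

theorem lam_two_one (m : ℕ) : lam m = 1 ∨ lam m = -1 := Pool.Agent.X23.CS.lam_pm m

/-- from the exponential sums over `g` up to `M` to the intervals of a progression -/
lemma sml_of (g : ℕ → ℝ) (hg : ∀ n, |g n| ≤ 1) (a b R M : ℕ) (ha : 1 ≤ a) (hM : a * R + b ≤ M) (η : ℝ)
    (hη : 0 ≤ η) (h : ∀ (α : ℝ) (y : ℕ), y ≤ M → ‖∑ n ∈ Icc 1 y, ((g n : ℝ) : ℂ) * e (α * n)‖ ≤ η) :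
    Sml (fun n => g (a * n + b)) R (2 * η + 1) := by
  intro t Y X hX
  refine hat_Ico _ (fun n => ?_) t Y X (2 * η) (by positivity) ?_
  · rw [Complex.norm_real, Real.norm_eq_abs]
    exact hg _
  · intro Y' X' hYX' hX'
    exact ap_bound (fun m => ((g m : ℝ) : ℂ)) M η h a b Y' X' ha hYX' (by
      have : a * X' ≤ a * R := Nat.mul_le_mul_left _ (by omega)
      omega) t

theorem sm4_prod {E : Set ℕ} (h1 : Pool.Agent.X23.CS.One E) (h2 : Two E) (h3 : Three E) (a B : ℕ) (ha : 1 ≤ a) (δ : ℝ)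
    (hδ : 0 < δ) : ∃ N₀ : ℕ, ∀ N : ℕ, N₀ ≤ N → (2 * a + B) * N + 12 * a ∉ E → ∀ b : ℕ, b ≤ B * N →
      Sm4 (fun n => prodL a b n 0) (2 * (N + 4) + 1 + 3) (δ * N) := by
  have ha0 : (1 : ℝ) ≤ a := by exact_mod_cast ha
  have hB0 : (0 : ℝ) ≤ B := Nat.cast_nonneg _
  set η : ℝ := δ / (4 * (14 * a + B)) with hη
  have hηpos : 0 < η := by positivity
  obtain ⟨N₁, g1⟩ := h1 0 η hηpos
  obtain ⟨N₂, g2⟩ := h2 (2 * a) (by omega) η hηpos
  obtain ⟨N₃, g3⟩ := h2 a ha η hηpos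
  obtain ⟨N₄, g4⟩ := h3 a ha η hηpos
  obtain ⟨N₅, hN₅⟩ := exists_nat_ge (2 / δ)
  refine ⟨max (max N₁ N₂) (max (max N₃ N₄) (max N₅ 1)), fun N hN hNE b hb => ?_⟩
  have k1 : N₁ ≤ N := (le_max_left _ _).trans ((le_max_left _ _).trans hN)
  have k2 : N₂ ≤ N := (le_max_right _ _).trans ((le_max_left _ _).trans hN)
  have k3 : N₃ ≤ N := (le_max_left _ _).trans ((le_max_left _ _).trans ((le_max_right _ _).trans hN))
  have k4 : N₄ ≤ N := (le_max_right _ _).trans ((le_max_left _ _).trans ((le_max_right _ _).trans hN))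
  have k5 : N₅ ≤ N := (le_max_left _ _).trans ((le_max_right _ _).trans ((le_max_right _ _).trans hN))
  have k6 : 1 ≤ N := (le_max_right _ _).trans ((le_max_right _ _).trans ((le_max_right _ _).trans hN))
  set M := (2 * a + B) * N + 12 * a with hM
  have hNM : N ≤ M := by
    have : 1 * N ≤ (2 * a + B) * N := Nat.mul_le_mul_right _ (by omega)
    omega
  have k6r : (1 : ℝ) ≤ N := by exact_mod_cast k6
  have hMr : (M : ℝ) ≤ (14 * a + B) * N := by
    rw [hM]
    push_cast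
    nlinarith
  have hone : 1 ≤ δ / 2 * N := by
    have h3 : 2 / δ ≤ N := hN₅.trans (by exact_mod_cast k5)
    rw [div_le_iff₀ hδ] at h3
    linarith
  have hηM : 2 * (η * M) ≤ δ / 2 * N := by
    calc 2 * (η * M) ≤ 2 * (η * ((14 * a + B) * N)) := by gcongr
      _ = δ / 2 * N := by
        rw [hη]
        field_simp
        ring
  have hfin : 2 * (η * M) + 1 ≤ δ * N := by linarith
  have hR : a * (2 * (N + 4) + 1 + 3) + b ≤ M := by
    rw [hM]
    nlinarith
  have hmono : ∀ F : ℕ → ℝ, Sml F (2 * (N + 4) + 1 + 3) (2 * (η * M) + 1) →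
      Sml F (2 * (N + 4) + 1 + 3) (δ * N) := fun F hF t Y X hX => (hF t Y X hX).trans hfin
  have hb2 : ∀ x y : ℝ, (x = 1 ∨ x = -1) → (y = 1 ∨ y = -1) → (x * y = 1 ∨ x * y = -1) := by
    intro x y hx hy
    rcases hx with h | h <;> rcases hy with g | g <;> rw [h, g] <;> norm_num
  have habs : ∀ x : ℝ, (x = 1 ∨ x = -1) → |x| ≤ 1 := by
    intro x hx
    rcases hx with h | h <;> rw [h] <;> norm_num
  constructor
  · refine hmono _ ?_
    have h5 := sml_of (fun m => lam m) (fun n => habs _ (lam_two_one n)) a b _ M ha hR (η * M)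
      (by positivity) (fun α y hy => by
        have := g1 M (k1.trans hNM) hNE α y hy
        simpa using this)
    intro t Y X hX
    have h6 := h5 t Y X hX
    refine le_trans (le_of_eq ?_) h6
    congr 2
    funext n
    simp only
    rw [P_mul, prodL_one]
  · refine hmono _ ?_
    have h5 := sml_of (fun m => lam m * lam (m + a))
      (fun n => habs _ (hb2 _ _ (lam_two_one _) (lam_two_one _))) a b _ M ha hR (η * M)
      (by positivity) (fun α y hy => g3 M (k3.trans hNM) hNE α y hy)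
    intro t Y X hX
    have h6 := h5 t Y X hX
    refine le_trans (le_of_eq ?_) h6
    congr 2
    funext n
    simp only
    rw [P_mul, prodL_two]
  · refine hmono _ ?_
    have h5 := sml_of (fun m => lam m * lam (m + a) * lam (m + 2 * a))
      (fun n => habs _ (hb2 _ _ (hb2 _ _ (lam_two_one _) (lam_two_one _)) (lam_two_one _))) a b _ M ha hR
      (η * M) (by positivity) (fun α y hy => g4 M (k4.trans hNM) hNE α y hy)
    intro t Y X hX
    have h6 := h5 t Y X hX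
    refine le_trans (le_of_eq ?_) h6
    congr 2
    funext n
    simp only
    rw [P_mul, prodL_three]
  · refine hmono _ ?_
    have h5 := sml_of (fun m => lam m * lam (m + 2 * a))
      (fun n => habs _ (hb2 _ _ (lam_two_one _) (lam_two_one _))) a b _ M ha hR (η * M)
      (by positivity) (fun α y hy => g2 M (k2.trans hNM) hNE α y hy)
    intro t Y X hX
    have h6 := h5 t Y X hX
    refine le_trans (le_of_eq ?_) h6
    congr 2
    funext n
    simp only
    have e1 : prodL a b n 0 * prodL a b (n + 1) 0 * prodL a b (n + 2) 0 * prodL a b (n + 3) 0 =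
        (prodL a b n 0 * prodL a b (n + 1) 0) * (prodL a b (n + 2) 0 * prodL a b (n + 2 + 1) 0) := by ring
    rw [e1, P_mul, P_mul, prodL_one, prodL_one]
    have e2 : a * (n + 2) + b = a * n + b + 2 * a := by ring
    rw [e2]

/-- the sums over four neighbouring lengths and the mean over the lengths -/
lemma mean_of_few (T : ℕ → ℝ) (N : ℕ) (I ε : ℝ) (hT0 : ∀ k, 0 ≤ T k) (hTN : ∀ k, T k ≤ N) (hε : 0 ≤ ε)
    (hI : 0 ≤ I) (hfew : num (Icc 1 N) (fun k => ¬ ∑ j ∈ range 4, T (k + j) ≤ 9 / 16 * I + ε * N) ≤ ε * N) :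
    ∑ k ∈ Icc 1 N, T k ≤ N * (9 / 64 * I + 5 / 4 * (ε * N)) + 3 * N := by
  classical
  have h1 : ∑ k ∈ Icc 1 N, ∑ j ∈ range 4, T (k + j) ≤ N * (9 / 16 * I + ε * N) + ε * N * (4 * N) := by
    have h2 : ∀ k ∈ Icc 1 N, ∑ j ∈ range 4, T (k + j) ≤ (9 / 16 * I + ε * N) +
        if ¬ ∑ j ∈ range 4, T (k + j) ≤ 9 / 16 * I + ε * N then (4 * N : ℝ) else 0 := by
      intro k _
      have h3 : 0 ≤ 9 / 16 * I + ε * N := by positivity
      by_cases h : ∑ j ∈ range 4, T (k + j) ≤ 9 / 16 * I + ε * N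
      · rw [if_neg (not_not.2 h)]
        linarith
      · rw [if_pos h]
        have : ∑ j ∈ range 4, T (k + j) ≤ ∑ _j ∈ range 4, (N : ℝ) := sum_le_sum fun j _ => hTN _
        rw [sum_const, card_range, nsmul_eq_mul] at this
        push_cast at this
        linarith
    refine (sum_le_sum h2).trans ?_
    rw [sum_add_distrib, sum_const, Nat.card_Icc, nsmul_eq_mul, ← sum_filter, sum_const, nsmul_eq_mul]
    have h5 : (((Icc 1 N).filter (fun k => ¬ ∑ j ∈ range 4, T (k + j) ≤ 9 / 16 * I + ε * N)).card : ℝ) ≤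
        ε * N := by
      unfold num at hfew
      convert hfew
    have h4 := mul_le_mul_of_nonneg_right h5 (by positivity : (0 : ℝ) ≤ 4 * N)
    have e1 : ((N + 1 - 1 : ℕ) : ℝ) = N := by rw [Nat.add_sub_cancel]
    rw [e1]
    linarith
  have h2 : 4 * ∑ k ∈ Icc 1 N, T k ≤ ∑ k ∈ Icc 1 N, ∑ j ∈ range 4, T (k + j) + 12 * N := by
    rw [sum_comm, sum_range_succ, sum_range_succ, sum_range_succ, sum_range_one]
    have h3 : ∀ j : ℕ, ∑ k ∈ Icc 1 N, T k ≤ ∑ k ∈ Icc 1 N, T (k + j) + j * N := by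
      intro j
      have h4 : ∑ k ∈ Icc 1 N, T (k + j) = ∑ k ∈ Icc (1 + j) (N + j), T k := by
        rw [← map_add_right_Icc, sum_map]
        rfl
      rw [h4]
      have h5 : ∑ k ∈ Icc 1 N, T k ≤ ∑ k ∈ Icc (1 + j) (N + j) ∪ Icc 1 j, T k := by
        refine sum_le_sum_of_subset_of_nonneg ?_ fun k _ _ => hT0 k
        intro k hk
        rw [mem_union, mem_Icc, mem_Icc]
        rw [mem_Icc] at hk
        omega
      have h6 := sum_union_inter (s₁ := Icc (1 + j) (N + j)) (s₂ := Icc 1 j) (f := T)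
      have h7 : 0 ≤ ∑ k ∈ Icc (1 + j) (N + j) ∩ Icc 1 j, T k := sum_nonneg fun k _ => hT0 k
      have h8 : ∑ k ∈ Icc 1 j, T k ≤ j * N := by
        refine (sum_le_sum fun k _ => hTN k).trans (le_of_eq ?_)
        rw [sum_const, Nat.card_Icc, nsmul_eq_mul, Nat.add_sub_cancel]
      linarith
    have b1 := h3 1
    have b2 := h3 2
    have b3 := h3 3
    push_cast at b1 b2 b3
    simp only [add_zero]
    linarith
  linarith

theorem main : ∃ E : Set ℕ, LogDensityZero E ∧ ∀ a B : ℕ, 1 ≤ a → ∀ ε : ℝ, 0 < ε →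
    ∃ N₀ : ℕ, ∀ N : ℕ, N₀ ≤ N → N ∉ E → ∀ b : ℕ, b ≤ B * N →
      num (Icc 1 N) (fun k => ¬ ∀ Y X : ℕ, Y ≤ X → X ≤ N →
        |sumL a b k Y X| ≤ ((X : ℝ) - Y) / 4 + ε * N) ≤ ε * N ∧
      num (Icc 1 N) (fun k => ¬ ∀ Y X : ℕ, Y ≤ X → X ≤ N →
        |sumL a b k Y X| + |sumL a b (k + 1) Y X| + |sumL a b (k + 2) Y X| + |sumL a b (k + 3) Y X| ≤
          9 / 16 * ((X : ℝ) - Y) + ε * N) ≤ ε * N ∧
      (∀ Y X : ℕ, Y ≤ X → X ≤ N → ∑ k ∈ Icc 1 N, |sumL a b k Y X| ≤ N * (9 / 64 * ((X : ℝ) - Y) + ε * N)) ∧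
      (∀ (α : ℝ) (Y X : ℕ), Y ≤ X → X ≤ N →
        ‖∑ n ∈ Ioc Y X, ((prodL a b n 0 : ℝ) : ℂ) * e (α * n)‖ ≤ 3 / 8 * ((X : ℝ) - Y) + ε * N) := by
  obtain ⟨E, hE, h1, h2, h3⟩ := exc3
  obtain ⟨F, hF, hdiag⟩ := LZ_diag'
    (fun t : ℕ × ℕ => {N | (2 * (t.1 + 1) + t.2) * N + 12 * (t.1 + 1) ∈ E})
    (fun t => pull hE _ _ (by omega))
  refine ⟨F, hF, fun a B ha ε hε => ?_⟩
  set ε' : ℝ := ε / 2 with hε'
  have hε'0 : 0 < ε' := by positivity
  obtain ⟨δ, hδ, N₁, g1⟩ := all_signs ε' hε'0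
  obtain ⟨N₂, g2⟩ := sm4_prod h1 h2 h3 a B ha (min δ ε') (lt_min hδ hε'0)
  obtain ⟨N₃, g3⟩ := hdiag (a - 1, B)
  obtain ⟨N₄, hN₄⟩ := exists_nat_ge (16 / ε)
  refine ⟨max (max N₁ N₂) (max N₃ N₄), fun N hN hNF b hb => ?_⟩
  have k1 : N₁ ≤ N := (le_max_left _ _).trans ((le_max_left _ _).trans hN)
  have k2 : N₂ ≤ N := (le_max_right _ _).trans ((le_max_left _ _).trans hN)
  have k3 : N₃ ≤ N := (le_max_left _ _).trans ((le_max_right _ _).trans hN)
  have k4 : N₄ ≤ N := (le_max_right _ _).trans ((le_max_right _ _).trans hN)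
  have hNE : (2 * a + B) * N + 12 * a ∉ E := by
    intro hcon
    refine hNF (g3 N k3 ?_)
    have : a - 1 + 1 = a := by omega
    simp only [this]
    exact hcon
  have hN0 : (0 : ℝ) ≤ N := Nat.cast_nonneg N
  have hbig : 16 ≤ ε * N := by
    have h3 : 16 / ε ≤ N := le_trans hN₄ (by exact_mod_cast k4)
    rw [div_le_iff₀ hε] at h3
    linarith
  have hS := g2 N k2 hNE b hb
  have hSd : Sm4 (fun n => prodL a b n 0) (2 * (N + 4) + 1 + 3) (δ * N) := by
    have hle : min δ ε' * N ≤ δ * N := mul_le_mul_of_nonneg_right (min_le_left _ _) hN0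
    exact ⟨fun t Y X hX => (hS.one t Y X hX).trans hle, fun t Y X hX => (hS.two t Y X hX).trans hle,
      fun t Y X hX => (hS.three t Y X hX).trans hle, fun t Y X hX => (hS.four t Y X hX).trans hle⟩
  have hau : ∀ k Y X : ℕ, au (fun n => prodL a b n 0) k Y X = sumL a b k Y X := by
    intro k Y X
    unfold au sumL
    exact sum_congr rfl fun n _ => P_mul a b n k
  obtain ⟨r1, r2⟩ := g1 N k1 (fun n => prodL a b n 0) (fun n => prodL_pm a b n 0) hSd
  simp only [hau] at r1 r2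
  have hε'N : ε' * N ≤ ε * N := mul_le_mul_of_nonneg_right (by rw [hε']; linarith) hN0
  refine ⟨?_, ?_, ?_, ?_⟩
  · refine (num_mono fun k _ hk => ?_).trans (r1.trans hε'N)
    intro hcon
    refine hk fun Y X hYX hX => ?_
    have := hcon Y X hYX hX
    linarith
  · refine (num_mono fun k _ hk => ?_).trans (r2.trans hε'N)
    intro hcon
    refine hk fun Y X hYX hX => ?_
    have h4 := hcon Y X hYX hX
    rw [sum_range_succ, sum_range_succ, sum_range_succ, sum_range_one, add_zero] at h4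
    linarith
  · intro Y X hYX hX
    have hlen : 0 ≤ (X : ℝ) - Y := by
      rw [sub_nonneg]
      exact_mod_cast hYX
    have h4 := mean_of_few (fun k => |sumL a b k Y X|) N ((X : ℝ) - Y) ε' (fun k => abs_nonneg _) (fun k => by
      show |sumL a b k Y X| ≤ N
      rw [← hau]
      refine (au_abs _ (fun n => prodL_pm a b n 0) k hYX).trans ?_
      have e1 : (X : ℝ) ≤ N := by exact_mod_cast hX
      have e2 : (0 : ℝ) ≤ Y := Nat.cast_nonneg Y
      linarith) hε'0.le hlen ((num_mono fun k _ hk hcon => hk (hcon Y X hYX hX)).trans r2)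
    refine h4.trans ?_
    have e3 : (3 : ℝ) ≤ 3 / 8 * (ε * N) := by linarith
    have e4 : N * (9 / 64 * ((X : ℝ) - Y) + 5 / 4 * (ε' * N)) + 3 * N =
        N * (9 / 64 * ((X : ℝ) - Y) + 5 / 4 * (ε' * N) + 3) := by ring
    rw [e4]
    apply mul_le_mul_of_nonneg_left _ hN0
    rw [hε']
    linarith
  · intro α Y X hYX hX
    have h4 := expo (fun n => prodL a b n 0) (fun n => prodL_pm a b n 0) (2 * (N + 4) + 1) _ hS
      (Y + 1) (X + 1) (by omega) (by omega) α
    have h5 : hat (Ico (Y + 1) (X + 1)) (fun n => ((prodL a b n 0 : ℝ) : ℂ)) α =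
        ∑ n ∈ Ioc Y X, ((prodL a b n 0 : ℝ) : ℂ) * e (α * n) := by
      unfold hat
      refine sum_congr ?_ fun _ _ => rfl
      ext n
      simp only [mem_Ico, mem_Ioc]
      omega
    rw [h5] at h4
    refine h4.trans ?_
    have h6 : min δ ε' * N ≤ ε' * N := mul_le_mul_of_nonneg_right (min_le_right _ _) hN0
    push_cast
    have h7 : ε' * N = ε * N / 2 := by rw [hε']; ring
    linarith

/-- the product of the first `n` values is the value at `n!` -/
theorem prodL_factorial (n : ℕ) : prodL 1 1 n 0 = (-1 : ℝ) ^ ArithmeticFunction.cardFactors n.factorial := by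
  induction n with
  | zero => simp [prodL]
  | succ n ih =>
    rw [Pool.Agent.X23.CS.prodL_succ, ih, Nat.factorial_succ,
      ArithmeticFunction.cardFactors_mul (by omega) (Nat.factorial_ne_zero n), pow_add, mul_comm]
    congr 2
    ring_nf

end Pool.Agent.Helper87.Q
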