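import Pool.Agent.Helper87.Q.Nine2
import Pool.Graph.R_pool_sql_team_seeded_64922ed1.X23.CS8

/-!
Almost all lengths: the bounds on all the intervals.
-/

set_option autoImplicit false

open Finset

namespace Pool.Agent.Helper87.Q

open Pool.Agent.X23.CS (num au au_Ico num_mono num_zero num_union au_split au_abs)

/-- from the pairs of a grid to all the intervals -/
theorem grid (c L ε : ℝ) (hc : 0 ≤ c) (hL : 0 ≤ L) (hε : 0 < ε) : ∃ κ : ℝ, 0 < κ ∧ ∃ N₀ : ℕ, ∀ N : ℕ, N₀ ≤ N →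
    ∀ Φ : ℕ → ℕ → ℕ → ℝ,
      (∀ k Y X Y' X' : ℕ, Y' ≤ X' → Y ≤ X → Y' ≤ Y → X' ≤ X →
        Φ k Y X ≤ Φ k Y' X' + L * (((Y : ℝ) - Y') + ((X : ℝ) - X'))) →
      (∀ Y X : ℕ, Y ≤ X → X ≤ N → num (Icc 1 N) (fun k => c * ((X : ℝ) - Y) + ε / 4 * N < Φ k Y X) ≤ κ * N) →
      num (Icc 1 N) (fun k => ¬ ∀ Y X : ℕ, Y ≤ X → X ≤ N → Φ k Y X ≤ c * ((X : ℝ) - Y) + ε * N) ≤ ε * N := by
  set T : ℝ := 4 * (c + 2 * L + 1) with hT
  have hT0 : 0 < T := by positivity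
  obtain ⟨Gd, hG⟩ := exists_nat_ge (2 * T / ε)
  refine ⟨ε / (Gd + 1) ^ 2, by positivity, ?_⟩
  obtain ⟨N₁, hN₁⟩ := exists_nat_ge (2 * T / ε)
  refine ⟨max N₁ 1, fun N hN Φ hLip hpairs => ?_⟩
  have hNN₁ : N₁ ≤ N := le_trans (le_max_left _ _) hN
  have hN1 : 1 ≤ N := le_trans (le_max_right _ _) hN
  have hNpos : (0 : ℝ) < N := by exact_mod_cast hN1
  have hbig : 2 * T ≤ ε * N := by
    have h3 : 2 * T / ε ≤ N := le_trans hN₁ (by exact_mod_cast hNN₁)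
    rw [div_le_iff₀ hε] at h3
    linarith
  -- the step of the grid
  set h : ℕ := ⌊ε / T * N⌋₊ with hh
  have hh1 : (h : ℝ) ≤ ε / T * N := Nat.floor_le (by positivity)
  have hh2 : ε / T * N < h + 1 := Nat.lt_floor_add_one _
  have hone : 1 ≤ ε / T * N / 2 := by
    rw [div_mul_eq_mul_div, div_div, le_div_iff₀ (by positivity)]
    linarith
  have hh3 : ε / T * N / 2 ≤ h := by linarith
  have hhpos : (0 : ℝ) < h := by linarith
  have hhpos' : 0 < h := by exact_mod_cast hhpos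
  have hTh : T * h ≤ ε * N := by
    have := mul_le_mul_of_nonneg_left hh1 hT0.le
    have e1 : T * (ε / T * N) = ε * N := by field_simp
    linarith
  have hcell : ∀ X : ℕ, X ≤ N → X / h < Gd + 1 := by
    intro X hX
    rw [Nat.div_lt_iff_lt_mul hhpos']
    have h1 : (N : ℝ) ≤ Gd * h := by
      have h2 : 2 * T ≤ ε * Gd := by
        rw [div_le_iff₀ hε] at hG
        linarith
      have hG0 : (0 : ℝ) ≤ Gd := Nat.cast_nonneg _
      have h3 : (N : ℝ) = 2 * T / ε * (ε / T * N / 2) := by field_simp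
      have h4 : 2 * T / ε * (ε / T * N / 2) ≤ Gd * h :=
        mul_le_mul hG hh3 (by positivity) hG0
      linarith
    have h2 : N ≤ Gd * h := by exact_mod_cast h1
    have h3 : (Gd + 1) * h = Gd * h + h := by ring
    omega
  set κ₀ : ℝ := ε / (Gd + 1) ^ 2 with hκ₀
  have hpair : ∀ t ∈ (range (Gd + 1)) ×ˢ (range (Gd + 1)),
      num (Icc 1 N) (fun k => t.1 * h ≤ t.2 * h ∧ t.2 * h ≤ N ∧
        c * (((t.2 * h : ℕ) : ℝ) - ((t.1 * h : ℕ) : ℝ)) + ε / 4 * N < Φ k (t.1 * h) (t.2 * h)) ≤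
        κ₀ * N := by
    intro t _
    by_cases ht : t.1 * h ≤ t.2 * h ∧ t.2 * h ≤ N
    · exact (num_mono fun k _ hk => hk.2.2).trans (hpairs (t.1 * h) (t.2 * h) ht.1 ht.2)
    · have : num (Icc 1 N) (fun k => t.1 * h ≤ t.2 * h ∧ t.2 * h ≤ N ∧
        c * (((t.2 * h : ℕ) : ℝ) - ((t.1 * h : ℕ) : ℝ)) + ε / 4 * N < Φ k (t.1 * h) (t.2 * h)) = 0 :=
        num_zero fun k _ hk => ht ⟨hk.1, hk.2.1⟩
      rw [this]
      positivity
  refine (num_union ((range (Gd + 1)) ×ˢ (range (Gd + 1))) (Icc 1 N)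
    (fun t k => t.1 * h ≤ t.2 * h ∧ t.2 * h ≤ N ∧
        c * (((t.2 * h : ℕ) : ℝ) - ((t.1 * h : ℕ) : ℝ)) + ε / 4 * N < Φ k (t.1 * h) (t.2 * h))
    _ ?_).trans ?_
  · intro k _ hk
    by_contra hcon
    apply hk
    intro Y X hYX hX
    push Not at hcon
    have c1 : Y / h * h ≤ X / h * h := Nat.mul_le_mul_right _ (Nat.div_le_div_right hYX)
    have c2 : X / h * h ≤ X := Nat.div_mul_le_self _ _
    have c3 : Y / h * h ≤ Y := Nat.div_mul_le_self _ _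
    have c4 : X < X / h * h + h := Nat.lt_div_mul_add hhpos'
    have c5 : Y < Y / h * h + h := Nat.lt_div_mul_add hhpos'
    have h1 := hcon (Y / h, X / h) (mem_product.2 ⟨mem_range.2 (hcell Y (hYX.trans hX)),
      mem_range.2 (hcell X hX)⟩) c1 (c2.trans hX)
    simp only at h1
    set Y' := Y / h * h with hY'
    set X' := X / h * h with hX'
    have h2 := hLip k Y X Y' X' c1 hYX c3 c2
    have c2r : (X' : ℝ) ≤ X := by exact_mod_cast c2
    have c3r : (Y' : ℝ) ≤ Y := by exact_mod_cast c3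
    have c4r : (X : ℝ) ≤ X' + h := by exact_mod_cast c4.le
    have c5r : (Y : ℝ) ≤ Y' + h := by exact_mod_cast c5.le
    have h3 : L * (((Y : ℝ) - Y') + ((X : ℝ) - X')) ≤ L * (2 * h) :=
      mul_le_mul_of_nonneg_left (by linarith) hL
    have h4 : c * ((X' : ℝ) - Y') ≤ c * ((X : ℝ) - Y + h) :=
      mul_le_mul_of_nonneg_left (by linarith) hc
    have h5 : c * h + L * (2 * h) ≤ ε / 4 * N := by
      have e1 : 4 * (c * h + L * (2 * h)) ≤ T * h := by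
        rw [hT]
        nlinarith
      linarith
    nlinarith
  · refine (sum_le_sum hpair).trans ?_
    rw [sum_const, card_product, card_range, nsmul_eq_mul]
    push_cast
    have : ((Gd : ℝ) + 1) * (Gd + 1) * (κ₀ * N) = ε * N := by
      rw [hκ₀]
      field_simp
    exact this.le

lemma au_lip (p : ℕ → ℝ) (hp : ∀ n, p n = 1 ∨ p n = -1) (k Y X Y' X' : ℕ) (h1 : Y' ≤ X') (h2 : Y ≤ X)
    (h3 : Y' ≤ Y) (h4 : X' ≤ X) :
    |au p k Y X| ≤ |au p k Y' X'| + (((Y : ℝ) - Y') + ((X : ℝ) - X')) := by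
  have s1 : au p k Y' X = au p k Y' X' + au p k X' X := au_split p k h1 h4
  have s2 : au p k Y' X = au p k Y' Y + au p k Y X := au_split p k h3 h2
  have b1 := au_abs p hp k h4
  have b2 := au_abs p hp k h3
  have h5 : au p k Y X = au p k Y' X' + au p k X' X - au p k Y' Y := by linarith
  rw [h5]
  have h6 := abs_sub (au p k Y' X' + au p k X' X) (au p k Y' Y)
  have h7 := abs_add_le (au p k Y' X') (au p k X' X)
  linarith

/-- one interval, the bound one quarter -/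
theorem few_quarter (p : ℕ → ℝ) (hp : ∀ n, p n = 1 ∨ p n = -1) (N : ℕ) (D : ℝ)
    (hD : Sm4 p (2 * (N + 4) + 1 + 3) D) (Y X : ℕ) (hYX : Y ≤ X) (hX : X ≤ N) (κ ρ : ℝ) (hκ : 0 < κ)
    (hρ : 12 + 3 / 2 * (D * ((2 * (N + 4) + 1 : ℕ) : ℝ) / κ) +
      3 / 2 * (D * ((2 * (N + 4) + 1 : ℕ) : ℝ) ^ 2 / κ ^ 2) ≤ ρ) :
    num (Icc 1 N) (fun k => 1 / 4 * ((X : ℝ) - Y) + ρ < |au p k Y X|) ≤ κ := by
  classical
  by_contra hcon
  rw [not_le] at hcon
  unfold num at hcon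
  set K := (Icc 1 N).filter (fun k => 1 / 4 * ((X : ℝ) - Y) + ρ < |au p k Y X|) with hK
  have hK0 : (0 : ℝ) < K.card := lt_trans hκ hcon
  have hK1 : 0 < K.card := by exact_mod_cast hK0
  have hKne : K.Nonempty := card_pos.1 hK1
  have hD0 : 0 ≤ D := (norm_nonneg _).trans (hD.one 0 0 0 (Nat.zero_le _))
  have h1 := avg_quarter p hp (N + 4) D hD K hK1 (fun k hk => by
    have := mem_Icc.1 (mem_filter.1 hk).1
    exact mem_range.2 (by omega)) (Y + 1) (X + 1) (by omega) (by omega)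
  have h2 : K.card * (1 / 4 * ((X : ℝ) - Y) + ρ) <
      ∑ k ∈ K, |∑ n ∈ Ico (Y + 1) (X + 1), p n * p (n + k)| := by
    rw [← nsmul_eq_mul, ← sum_const]
    refine sum_lt_sum_of_nonempty hKne fun k hk => ?_
    rw [← au_Ico]
    exact (mem_filter.1 hk).2
  have h3 : 1 / 4 * ((X : ℝ) - Y) + ρ <
      (∑ k ∈ K, |∑ n ∈ Ico (Y + 1) (X + 1), p n * p (n + k)|) / K.card := by
    rw [lt_div_iff₀ hK0, mul_comm]
    exact h2
  have h4 : D * ((2 * (N + 4) + 1 : ℕ) : ℝ) / K.card ≤ D * ((2 * (N + 4) + 1 : ℕ) : ℝ) / κ :=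
    div_le_div_of_nonneg_left (by positivity) hκ hcon.le
  have h5 : D * ((2 * (N + 4) + 1 : ℕ) : ℝ) ^ 2 / (K.card : ℝ) ^ 2 ≤
      D * ((2 * (N + 4) + 1 : ℕ) : ℝ) ^ 2 / κ ^ 2 :=
    div_le_div_of_nonneg_left (by positivity) (by positivity)
      (pow_le_pow_left₀ hκ.le hcon.le 2)
  have h6 : (((X + 1 : ℕ) : ℝ) - ((Y + 1 : ℕ) : ℝ)) / 4 = 1 / 4 * ((X : ℝ) - Y) := by
    push_cast
    ring
  rw [h6] at h1
  linarith

/-- one interval, four neighbouring lengths -/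
theorem few_nine (p : ℕ → ℝ) (hp : ∀ n, p n = 1 ∨ p n = -1) (N : ℕ) (D : ℝ)
    (hD : Sm4 p (2 * (N + 4) + 1 + 3) D) (Y X : ℕ) (hYX : Y ≤ X) (hX : X ≤ N) (κ ρ η : ℝ) (hκ : 0 < κ)
    (hη : 0 < η) (hη1 : η ≤ 1)
    (hρ : 3 / 8 * η * N + 20 + D * (4 * ((2 * (N + 4) + 1 : ℕ) : ℝ) / κ) ^ 4 * (3 + 132 / η) ≤ ρ) :
    num (Icc 1 N) (fun k => 9 / 16 * ((X : ℝ) - Y) + ρ < ∑ j ∈ range 4, |au p (k + j) Y X|) ≤ κ := by
  classical
  by_contra hcon
  rw [not_le] at hcon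
  unfold num at hcon
  set K := (Icc 1 N).filter (fun k => 9 / 16 * ((X : ℝ) - Y) + ρ < ∑ j ∈ range 4, |au p (k + j) Y X|) with hK
  have hK0 : (0 : ℝ) < K.card := lt_trans hκ hcon
  have hK1 : 0 < K.card := by exact_mod_cast hK0
  have hKne : K.Nonempty := card_pos.1 hK1
  have hD0 : 0 ≤ D := (norm_nonneg _).trans (hD.one 0 0 0 (Nat.zero_le _))
  have h1 := avg_nine p hp (N + 4) D hD K hK1 (fun k hk => by
    have := mem_Icc.1 (mem_filter.1 hk).1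
    exact mem_range.2 (by omega)) (Y + 1) (X + 1) (by omega) (by omega) η hη hη1
  have h2 : K.card * (9 / 16 * ((X : ℝ) - Y) + ρ) <
      ∑ k ∈ K, ∑ j ∈ range 4, |∑ n ∈ Ico (Y + 1) (X + 1), p n * p (n + (k + j))| := by
    rw [← nsmul_eq_mul, ← sum_const]
    refine sum_lt_sum_of_nonempty hKne fun k hk => ?_
    have h7 := (mem_filter.1 hk).2
    refine lt_of_lt_of_eq h7 ?_
    refine sum_congr rfl fun j _ => ?_
    rw [au_Ico]
  have h3 : 9 / 16 * ((X : ℝ) - Y) + ρ <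
      (∑ k ∈ K, ∑ j ∈ range 4, |∑ n ∈ Ico (Y + 1) (X + 1), p n * p (n + (k + j))|) / K.card := by
    rw [lt_div_iff₀ hK0, mul_comm]
    exact h2
  have h4 : 4 * ((2 * (N + 4) + 1 : ℕ) : ℝ) / K.card ≤ 4 * ((2 * (N + 4) + 1 : ℕ) : ℝ) / κ :=
    div_le_div_of_nonneg_left (by positivity) hκ hcon.le
  have h5 : D * (4 * ((2 * (N + 4) + 1 : ℕ) : ℝ) / K.card) ^ 4 * (3 + 132 / η) ≤
      D * (4 * ((2 * (N + 4) + 1 : ℕ) : ℝ) / κ) ^ 4 * (3 + 132 / η) := by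
    apply mul_le_mul_of_nonneg_right _ (by positivity)
    apply mul_le_mul_of_nonneg_left _ hD0
    exact pow_le_pow_left₀ (by positivity) h4 4
  have h6 : ((X + 1 : ℕ) : ℝ) - ((Y + 1 : ℕ) : ℝ) = (X : ℝ) - Y := by
    push_cast
    ring
  have h8 : 3 / 8 * η * ((X : ℝ) - Y) ≤ 3 / 8 * η * N := by
    apply mul_le_mul_of_nonneg_left _ (by positivity)
    have : (X : ℝ) ≤ N := by exact_mod_cast hX
    have : (0 : ℝ) ≤ Y := Nat.cast_nonneg Y
    linarith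
  rw [h6] at h1
  nlinarith

/-- **almost all lengths**: the bounds on all the intervals, for sign sequences -/
theorem all_signs (ε : ℝ) (hε : 0 < ε) : ∃ δ : ℝ, 0 < δ ∧ ∃ N₀ : ℕ, ∀ N : ℕ, N₀ ≤ N →
    ∀ p : ℕ → ℝ, (∀ n, p n = 1 ∨ p n = -1) → Sm4 p (2 * (N + 4) + 1 + 3) (δ * N) →
      num (Icc 1 N) (fun k => ¬ ∀ Y X : ℕ, Y ≤ X → X ≤ N →
        |au p k Y X| ≤ 1 / 4 * ((X : ℝ) - Y) + ε * N) ≤ ε * N ∧
      num (Icc 1 N) (fun k => ¬ ∀ Y X : ℕ, Y ≤ X → X ≤ N →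
        ∑ j ∈ range 4, |au p (k + j) Y X| ≤ 9 / 16 * ((X : ℝ) - Y) + ε * N) ≤ ε * N := by
  obtain ⟨κ₁, hκ₁, N₁, H1⟩ := grid (1 / 4) 1 ε (by norm_num) (by norm_num) hε
  obtain ⟨κ₂, hκ₂, N₂, H2⟩ := grid (9 / 16) 4 ε (by norm_num) (by norm_num) hε
  set η : ℝ := min 1 (ε / 8) with hη
  have hη0 : 0 < η := lt_min one_pos (by positivity)
  have hη1 : η ≤ 1 := min_le_left _ _
  have hη2 : η ≤ ε / 8 := min_le_right _ _
  set Q₁ : ℝ := 3 / 2 * (11 / κ₁) + 3 / 2 * (121 / κ₁ ^ 2) with hQ₁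
  set Q₂ : ℝ := (44 / κ₂) ^ 4 * (3 + 132 / η) with hQ₂
  have hQ₁0 : 0 < Q₁ := by positivity
  have hQ₂0 : 0 < Q₂ := by positivity
  set δ : ℝ := ε / 16 / (Q₁ + Q₂) with hδd
  have hδ : 0 < δ := by positivity
  have hδQ : δ * (Q₁ + Q₂) = ε / 16 := by
    rw [hδd]
    field_simp
  have hδQ₁ : δ * Q₁ ≤ ε / 16 := by nlinarith
  have hδQ₂ : δ * Q₂ ≤ ε / 16 := by nlinarith
  obtain ⟨N₃, hN₃⟩ := exists_nat_ge (320 / ε)
  refine ⟨δ, hδ, max (max N₁ N₂) (max N₃ 1), fun N hN p hp hS => ?_⟩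
  have k1 : N₁ ≤ N := (le_max_left _ _).trans ((le_max_left _ _).trans hN)
  have k2 : N₂ ≤ N := (le_max_right _ _).trans ((le_max_left _ _).trans hN)
  have k3 : N₃ ≤ N := (le_max_left _ _).trans ((le_max_right _ _).trans hN)
  have k4 : 1 ≤ N := (le_max_right _ _).trans ((le_max_right _ _).trans hN)
  have hN1 : (1 : ℝ) ≤ N := by exact_mod_cast k4
  have hN0 : (0 : ℝ) < N := by linarith
  have hbig : 320 ≤ ε * N := by
    have h3 : 320 / ε ≤ N := le_trans hN₃ (by exact_mod_cast k3)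
    rw [div_le_iff₀ hε] at h3
    linarith
  have hM : ((2 * (N + 4) + 1 : ℕ) : ℝ) ≤ 11 * N := by
    push_cast
    linarith
  have hM0 : (0 : ℝ) ≤ ((2 * (N + 4) + 1 : ℕ) : ℝ) := Nat.cast_nonneg _
  constructor
  · refine H1 N k1 (fun k Y X => |au p k Y X|) ?_ ?_
    · intro k Y X Y' X' a1 a2 a3 a4
      rw [one_mul]
      exact au_lip p hp k Y X Y' X' a1 a2 a3 a4
    · intro Y X hYX hX
      refine few_quarter p hp N (δ * N) hS Y X hYX hX (κ₁ * N) (ε / 4 * N) (by positivity) ?_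
      have e1 : δ * N * ((2 * (N + 4) + 1 : ℕ) : ℝ) / (κ₁ * N) ≤ δ * (11 / κ₁) * N := by
        rw [div_le_iff₀ (by positivity)]
        calc δ * N * ((2 * (N + 4) + 1 : ℕ) : ℝ) ≤ δ * N * (11 * N) :=
              mul_le_mul_of_nonneg_left hM (by positivity)
          _ = _ := by field_simp
      have e2 : δ * N * ((2 * (N + 4) + 1 : ℕ) : ℝ) ^ 2 / (κ₁ * N) ^ 2 ≤ δ * (121 / κ₁ ^ 2) * N := by
        rw [div_le_iff₀ (by positivity)]
        calc δ * N * ((2 * (N + 4) + 1 : ℕ) : ℝ) ^ 2 ≤ δ * N * (11 * N) ^ 2 :=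
              mul_le_mul_of_nonneg_left (pow_le_pow_left₀ hM0 hM 2) (by positivity)
          _ = _ := by field_simp; ring
      have e3 : 3 / 2 * (δ * (11 / κ₁) * N) + 3 / 2 * (δ * (121 / κ₁ ^ 2) * N) = δ * Q₁ * N := by
        rw [hQ₁]
        ring
      have e4 : δ * Q₁ * N ≤ ε / 16 * N := mul_le_mul_of_nonneg_right hδQ₁ hN0.le
      linarith
  · refine H2 N k2 (fun k Y X => ∑ j ∈ range 4, |au p (k + j) Y X|) ?_ ?_
    · intro k Y X Y' X' a1 a2 a3 a4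
      refine (sum_le_sum fun j _ => au_lip p hp (k + j) Y X Y' X' a1 a2 a3 a4).trans (le_of_eq ?_)
      rw [sum_add_distrib, sum_const, card_range, nsmul_eq_mul]
      push_cast
      ring
    · intro Y X hYX hX
      refine few_nine p hp N (δ * N) hS Y X hYX hX (κ₂ * N) (ε / 4 * N) η (by positivity) hη0 hη1 ?_
      have e1 : 4 * ((2 * (N + 4) + 1 : ℕ) : ℝ) / (κ₂ * N) ≤ 44 / κ₂ := by
        rw [div_le_iff₀ (by positivity)]
        calc 4 * ((2 * (N + 4) + 1 : ℕ) : ℝ) ≤ 4 * (11 * N) :=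
              mul_le_mul_of_nonneg_left hM (by norm_num)
          _ = _ := by field_simp; ring
      have e2 : δ * N * (4 * ((2 * (N + 4) + 1 : ℕ) : ℝ) / (κ₂ * N)) ^ 4 * (3 + 132 / η) ≤
          δ * N * (44 / κ₂) ^ 4 * (3 + 132 / η) := by
        apply mul_le_mul_of_nonneg_right _ (by positivity)
        apply mul_le_mul_of_nonneg_left _ (by positivity)
        exact pow_le_pow_left₀ (by positivity) e1 4
      have e3 : δ * N * (44 / κ₂) ^ 4 * (3 + 132 / η) = δ * Q₂ * N := by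
        rw [hQ₂]
        ring
      have e4 : δ * Q₂ * N ≤ ε / 16 * N := mul_le_mul_of_nonneg_right hδQ₂ hN0.le
      have e5 : 3 / 8 * η * N ≤ ε / 16 * N := by
        apply mul_le_mul_of_nonneg_right _ hN0.le
        linarith
      linarith

end Pool.Agent.Helper87.Q
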