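import Pool.Agent.Helper87.Q.Cor

/-!
Autocorrelations of sign sequences: four neighbouring lengths.
-/

set_option autoImplicit false

open Finset

namespace Pool.Agent.Helper87.Q

open Pool.Agent.X23.CS (e norm_e e_add hat G abs_G_le sum_G sum_GG sum_shift shift_Ico cs abs_cs_le cs_eq)

/-- the average of four neighbouring shifts -/
noncomputable def G4 (K : Finset ℕ) (s : ℕ → ℕ → ℝ) (p : ℕ → ℝ) (n : ℕ) : ℝ :=
  ∑ j ∈ range 4, G K (s j) p (n + j)

section

variable {p : ℕ → ℝ} {s : ℕ → ℕ → ℝ} (hp : ∀ n, p n = 1 ∨ p n = -1) (hs : ∀ j k, s j k = 1 ∨ s j k = -1)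
  {K : Finset ℕ} (hK : 0 < K.card) {N : ℕ} (hKN : K ⊆ range (N + 1)) {Y X : ℕ} (hX : X ≤ N)

include hp in
lemma hp_abs (n : ℕ) : |p n| ≤ 1 := by
  rcases hp n with h | h <;> rw [h] <;> norm_num

include hs in
lemma hs_abs (j k : ℕ) : |s j k| ≤ 1 := by
  rcases hs j k with h | h <;> rw [h] <;> norm_num

include hp hs hK in
lemma G4_abs (n : ℕ) : |G4 K s p n| ≤ 4 := by
  unfold G4
  refine (abs_sum_le_sum_abs _ _).trans ?_
  have : ∀ j ∈ range 4, |G K (s j) p (n + j)| ≤ 1 := fun j _ =>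
    abs_G_le K hK (s j) p (hs_abs hs j) (hp_abs hp) (n + j)
  refine (sum_le_sum this).trans ?_
  simp

include hp hs hK hKN hX

/-- multiplication by `G4` of a function with small exponential sums -/
lemma mul_G4 (i : ℕ) (F : ℕ → ℝ) (D : ℝ)
    (hF : ∀ t, ‖hat (Ico Y X) (fun n => ((F n : ℝ) : ℂ)) t‖ ≤ D) (t : ℝ) :
    ‖hat (Ico Y X) (fun n => ((F n * G4 K s p (n + i) : ℝ) : ℂ)) t‖ ≤
      D * (4 * ((2 * N + 1 : ℕ) : ℝ) / K.card) := by
  have h1 : ∀ j ∈ range 4, ‖∑ n ∈ Ico Y X, (((F n : ℝ) : ℂ) * e (t * n)) *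
      ((G K (s j) p (n + (i + j)) : ℝ) : ℂ)‖ ≤ D * ((2 * N + 1 : ℕ) : ℝ) / K.card := by
    intro j _
    refine sum_G (hp_abs hp) (hs_abs hs j) hK hKN hX (i + j) (fun n => ((F n : ℝ) : ℂ) * e (t * n)) D ?_
    intro u
    have h3 := hF (t + u)
    refine le_trans (le_of_eq ?_) h3
    congr 1
    unfold hat
    refine sum_congr rfl fun n _ => ?_
    rw [add_mul, e_add]
    ring
  have h2 : hat (Ico Y X) (fun n => ((F n * G4 K s p (n + i) : ℝ) : ℂ)) t =
      ∑ j ∈ range 4, ∑ n ∈ Ico Y X, (((F n : ℝ) : ℂ) * e (t * n)) *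
        ((G K (s j) p (n + (i + j)) : ℝ) : ℂ) := by
    unfold hat G4
    rw [sum_comm]
    refine sum_congr rfl fun n _ => ?_
    push_cast
    rw [mul_sum, sum_mul]
    refine sum_congr rfl fun j _ => ?_
    rw [add_assoc]
    ring
  rw [h2]
  refine (norm_sum_le _ _).trans ((sum_le_sum h1).trans (le_of_eq ?_))
  rw [sum_const, card_range, nsmul_eq_mul]
  push_cast
  ring

/-- `G4` is at most three halves in the mean with bounded weights -/
lemma G4_weight (D : ℝ) (hD : Sm4 p (2 * N + 1 + 3) D) (W : ℕ → ℝ) (hW : ∀ n, |W n| ≤ 1) :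
    ∑ n ∈ Ico Y X, G4 K s p n * W n ≤ 3 / 2 * ∑ n ∈ Ico Y X, |W n| +
      7 / 2 * (D * ((2 * N + 1 : ℕ) : ℝ) / K.card) := by
  have h0 : (0 : ℝ) < K.card := by exact_mod_cast hK
  set M : ℝ := ((2 * N + 1 : ℕ) : ℝ) with hM
  have e1 : ∑ n ∈ Ico Y X, G4 K s p n * W n =
      (∑ k ∈ K, ∑ n ∈ Ico Y X, W n * (∑ j ∈ range 4, s j k * p (n + k + j))) / K.card := by
    rw [sum_comm, sum_div]
    refine sum_congr rfl fun n _ => ?_
    unfold G4 G
    rw [← mul_sum, sum_comm, mul_comm (W n) _, mul_div_right_comm, ← sum_div]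
    congr 3
    funext j
    refine sum_congr rfl fun k _ => ?_
    congr 2
    ring
  set V : ℕ → ℝ := fun n => |W n| with hV
  have hWa : ∀ n, |V n| ≤ 1 := by
    intro n
    rw [hV]
    simp only [abs_abs]
    exact hW n
  -- the products
  have S2 : ∀ i j : ℕ, i < j → j ≤ 3 →
      ∑ k ∈ K, |∑ n ∈ Ico Y X, p (n + k + i) * p (n + k + j) * V n| ≤ D * M := by
    intro i j hij hj
    refine sum_shift (Y := Y) hKN hX V hWa (fun m => p (m + i) * p (m + j)) D (fun t => ?_)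
    rw [range_eq_Ico]
    exact hD.pair i j hij hj t 0 _ (by omega)
  have S4 : ∑ k ∈ K, |∑ n ∈ Ico Y X, p (n + k) * p (n + k + 1) * p (n + k + 2) * p (n + k + 3) * V n|
      ≤ D * M := by
    refine sum_shift (Y := Y) hKN hX V hWa
      (fun m => p m * p (m + 1) * p (m + 2) * p (m + 3)) D (fun t => ?_)
    rw [range_eq_Ico]
    exact hD.four t 0 _ (by omega)
  have hk : ∀ k ∈ K, ∑ n ∈ Ico Y X, W n * (∑ j ∈ range 4, s j k * p (n + k + j)) ≤
      3 / 2 * ∑ n ∈ Ico Y X, V n + (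
        |∑ n ∈ Ico Y X, p (n + k + 0) * p (n + k + 1) * V n| +
        |∑ n ∈ Ico Y X, p (n + k + 0) * p (n + k + 2) * V n| +
        |∑ n ∈ Ico Y X, p (n + k + 0) * p (n + k + 3) * V n| +
        |∑ n ∈ Ico Y X, p (n + k + 1) * p (n + k + 2) * V n| +
        |∑ n ∈ Ico Y X, p (n + k + 1) * p (n + k + 3) * V n| +
        |∑ n ∈ Ico Y X, p (n + k + 2) * p (n + k + 3) * V n| +
        |∑ n ∈ Ico Y X, p (n + k) * p (n + k + 1) * p (n + k + 2) * p (n + k + 3) * V n|) / 2 := by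
    intro k _
    have hsgn : ∀ j n, s j k * p n = 1 ∨ s j k * p n = -1 := by
      intro j n
      rcases hs j k with h | h <;> rcases hp n with h' | h' <;> rw [h, h'] <;> norm_num
    have h1 : ∀ n ∈ Ico Y X, W n * (∑ j ∈ range 4, s j k * p (n + k + j)) ≤
        3 / 2 * V n + (
        s 0 k * s 1 k * (p (n + k + 0) * p (n + k + 1) * V n) +
        s 0 k * s 2 k * (p (n + k + 0) * p (n + k + 2) * V n) +
        s 0 k * s 3 k * (p (n + k + 0) * p (n + k + 3) * V n) +
        s 1 k * s 2 k * (p (n + k + 1) * p (n + k + 2) * V n) +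
        s 1 k * s 3 k * (p (n + k + 1) * p (n + k + 3) * V n) +
        s 2 k * s 3 k * (p (n + k + 2) * p (n + k + 3) * V n) +
        (- (s 0 k * s 1 k * s 2 k * s 3 k)) *
          (p (n + k) * p (n + k + 1) * p (n + k + 2) * p (n + k + 3) * V n)) / 2 := by
      intro n _
      have h2 := abs_four (s 0 k * p (n + k + 0)) (s 1 k * p (n + k + 1)) (s 2 k * p (n + k + 2))
        (s 3 k * p (n + k + 3)) (hsgn _ _) (hsgn _ _) (hsgn _ _) (hsgn _ _)
      have h3 : W n * (∑ j ∈ range 4, s j k * p (n + k + j)) ≤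
          V n * |s 0 k * p (n + k + 0) + s 1 k * p (n + k + 1) + s 2 k * p (n + k + 2) +
            s 3 k * p (n + k + 3)| := by
        rw [hV]
        simp only
        rw [← abs_mul]
        refine (le_abs_self _).trans (le_of_eq ?_)
        congr 2
        rw [sum_range_succ, sum_range_succ, sum_range_succ, sum_range_one]
      refine h3.trans (le_of_eq ?_)
      rw [h2, add_zero]
      ring
    refine (sum_le_sum h1).trans ?_
    rw [sum_add_distrib, ← mul_sum, ← sum_div, sum_add_distrib, sum_add_distrib, sum_add_distrib,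
      sum_add_distrib, sum_add_distrib, sum_add_distrib, ← mul_sum, ← mul_sum, ← mul_sum, ← mul_sum,
      ← mul_sum, ← mul_sum, ← mul_sum]
    have hc : ∀ c z : ℝ, (c = 1 ∨ c = -1) → c * z ≤ |z| := by
      intro c z hc
      rcases hc with h | h <;> rw [h]
      · rw [one_mul]; exact le_abs_self z
      · rw [neg_one_mul]; exact neg_le_abs z
    have hss : ∀ i j, s i k * s j k = 1 ∨ s i k * s j k = -1 := by
      intro i j
      rcases hs i k with h | h <;> rcases hs j k with h' | h' <;> rw [h, h'] <;> norm_num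
    have hs4 : -(s 0 k * s 1 k * s 2 k * s 3 k) = 1 ∨ -(s 0 k * s 1 k * s 2 k * s 3 k) = -1 := by
      rcases hs 0 k with h0 | h0 <;> rcases hs 1 k with h1 | h1 <;> rcases hs 2 k with h2 | h2 <;>
        rcases hs 3 k with h3 | h3 <;> rw [h0, h1, h2, h3] <;> norm_num
    have b1 := hc _ (∑ n ∈ Ico Y X, p (n + k + 0) * p (n + k + 1) * V n) (hss 0 1)
    have b2 := hc _ (∑ n ∈ Ico Y X, p (n + k + 0) * p (n + k + 2) * V n) (hss 0 2)
    have b3 := hc _ (∑ n ∈ Ico Y X, p (n + k + 0) * p (n + k + 3) * V n) (hss 0 3)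
    have b4 := hc _ (∑ n ∈ Ico Y X, p (n + k + 1) * p (n + k + 2) * V n) (hss 1 2)
    have b5 := hc _ (∑ n ∈ Ico Y X, p (n + k + 1) * p (n + k + 3) * V n) (hss 1 3)
    have b6 := hc _ (∑ n ∈ Ico Y X, p (n + k + 2) * p (n + k + 3) * V n) (hss 2 3)
    have b7 := hc _ (∑ n ∈ Ico Y X, p (n + k) * p (n + k + 1) * p (n + k + 2) * p (n + k + 3) * V n) hs4
    linarith
  rw [e1, div_le_iff₀ h0]
  refine (sum_le_sum hk).trans ?_
  simp only [sum_add_distrib, ← sum_div, sum_const, nsmul_eq_mul]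
  have c1 := S2 0 1 (by norm_num) (by norm_num)
  have c2 := S2 0 2 (by norm_num) (by norm_num)
  have c3 := S2 0 3 (by norm_num) (by norm_num)
  have c4 := S2 1 2 (by norm_num) (by norm_num)
  have c5 := S2 1 3 (by norm_num) (by norm_num)
  have c6 := S2 2 3 (by norm_num) (by norm_num)
  have e2 : (3 / 2 * ∑ n ∈ Ico Y X, V n + 7 / 2 * (D * M / K.card)) * K.card =
      K.card * (3 / 2 * ∑ n ∈ Ico Y X, V n) + 7 / 2 * (D * M) := by
    field_simp
  rw [e2]
  linarith

/-- `G4` is rarely larger than three halves -/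
lemma G4_rare (D : ℝ) (hD : Sm4 p (2 * N + 1 + 3) D) (η : ℝ) :
    η * ((((Ico Y X).filter (fun n => 3 / 2 + η < |G4 K s p n|)).card : ℕ) : ℝ) ≤
      7 / 2 * (D * ((2 * N + 1 : ℕ) : ℝ) / K.card) := by
  classical
  set A := (Ico Y X).filter (fun n => 3 / 2 + η < |G4 K s p n|) with hA
  set W : ℕ → ℝ := fun n => if 3 / 2 + η < |G4 K s p n| then (if 0 ≤ G4 K s p n then 1 else -1) else 0
    with hWd
  have hW : ∀ n, |W n| ≤ 1 := by
    intro n
    simp only [hWd]
    split_ifs <;> norm_num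
  have h1 := G4_weight hp hs hK hKN hX D hD (Y := Y) W hW
  have h2 : ∑ n ∈ Ico Y X, |W n| = A.card := by
    have : ∀ n ∈ Ico Y X, |W n| = if 3 / 2 + η < |G4 K s p n| then 1 else 0 := by
      intro n _
      simp only [hWd]
      split_ifs <;> norm_num
    rw [sum_congr rfl this, ← sum_filter, sum_const, nsmul_eq_mul, mul_one]
  have h3 : (3 / 2 + η) * A.card ≤ ∑ n ∈ Ico Y X, G4 K s p n * W n := by
    have h4 : ∀ n ∈ Ico Y X, (if 3 / 2 + η < |G4 K s p n| then 3 / 2 + η else 0) ≤ G4 K s p n * W n := by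
      intro n _
      simp only [hWd]
      split_ifs with g1 g2
      · rw [mul_one]
        rw [abs_of_nonneg g2] at g1
        exact g1.le
      · rw [abs_of_neg (not_le.1 g2)] at g1
        linarith
      · rw [mul_zero]
    refine le_trans (le_of_eq ?_) (sum_le_sum h4)
    rw [← sum_filter, sum_const, nsmul_eq_mul, mul_comm]
  rw [h2] at h1
  linarith

end

end Pool.Agent.Helper87.Q
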