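import Pool.Agent.Helper87.Q.Nine

/-!
Autocorrelations of sign sequences: four neighbouring lengths, the bound nine sixteenths.
-/

set_option autoImplicit false

open Finset

namespace Pool.Agent.Helper87.Q

open Pool.Agent.X23.CS (e norm_e e_add hat G abs_G_le sum_G sum_GG sum_shift shift_Ico cs abs_cs_le cs_eq)

/-- the polynomial inequality for numbers up to `8 / 3`, with an error -/
lemma poly_ineq' (a b c d : ℝ) (ha : |a| ≤ 8 / 3) (hb : |b| ≤ 8 / 3) (hc : |c| ≤ 8 / 3) (hd : |d| ≤ 8 / 3) :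
    a + b + c + d ≤ 3 / 2 + (a * b + a * c + a * d + b * c + b * d + c * d) / 2 - a * b * c * d / 2 + 60 := by
  have h2 : ∀ x y : ℝ, |x| ≤ 8 / 3 → |y| ≤ 8 / 3 → |x * y| ≤ 64 / 9 := by
    intro x y hx hy
    rw [abs_mul]
    calc |x| * |y| ≤ (8 / 3) * (8 / 3) := mul_le_mul hx hy (abs_nonneg _) (by norm_num)
      _ = 64 / 9 := by norm_num
  have h4 : |a * b * c * d| ≤ 4096 / 81 := by
    have e : a * b * c * d = (a * b) * (c * d) := by ring
    rw [e, abs_mul]
    calc |a * b| * |c * d| ≤ (64 / 9) * (64 / 9) :=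
          mul_le_mul (h2 a b ha hb) (h2 c d hc hd) (abs_nonneg _) (by norm_num)
      _ = 4096 / 81 := by norm_num
  have k1 := (abs_le.mp (h2 a b ha hb)).1
  have k2 := (abs_le.mp (h2 a c ha hc)).1
  have k3 := (abs_le.mp (h2 a d ha hd)).1
  have k4 := (abs_le.mp (h2 b c hb hc)).1
  have k5 := (abs_le.mp (h2 b d hb hd)).1
  have k6 := (abs_le.mp (h2 c d hc hd)).1
  have k7 := (abs_le.mp h4).2
  have l1 := (abs_le.mp ha).2
  have l2 := (abs_le.mp hb).2
  have l3 := (abs_le.mp hc).2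
  have l4 := (abs_le.mp hd).2
  linarith

/-- **four neighbouring lengths** -/
theorem avg_nine (p : ℕ → ℝ) (hp : ∀ n, p n = 1 ∨ p n = -1) (N : ℕ) (D : ℝ)
    (hD : Sm4 p (2 * N + 1 + 3) D) (K : Finset ℕ) (hK : 0 < K.card) (hKN : K ⊆ range (N + 1))
    (Y X : ℕ) (hYX : Y ≤ X) (hX : X + 3 ≤ N) (η : ℝ) (hη : 0 < η) (hη1 : η ≤ 1) :
    (∑ k ∈ K, ∑ j ∈ range 4, |∑ n ∈ Ico Y X, p n * p (n + (k + j))|) / K.card ≤
      (9 / 16 + 3 / 8 * η) * ((X : ℝ) - Y) + 20 +
      D * (4 * ((2 * N + 1 : ℕ) : ℝ) / K.card) ^ 4 * (3 + 132 / η) := by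
  classical
  have h0 : (0 : ℝ) < K.card := by exact_mod_cast hK
  have hXN : X ≤ N := by omega
  set M : ℝ := ((2 * N + 1 : ℕ) : ℝ) with hM
  set Γ : ℝ := 4 * M / K.card with hΓ
  have hD0 : 0 ≤ D := (norm_nonneg _).trans (hD.one 0 0 0 (Nat.zero_le _))
  have hΓ1 : 1 ≤ Γ := by
    rw [hΓ, le_div_iff₀ h0, one_mul, hM]
    have h1 := card_le_card hKN
    rw [card_range] at h1
    have h2 : (K.card : ℝ) ≤ N + 1 := by exact_mod_cast h1
    push_cast
    have : (0 : ℝ) ≤ N := Nat.cast_nonneg N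
    linarith
  set c : ℕ → ℝ := fun k => ∑ n ∈ Ico Y X, p n * p (n + k) with hc
  set s : ℕ → ℕ → ℝ := fun j k => if 0 ≤ c (k + j) then 1 else -1 with hsd
  have hs : ∀ j k, s j k = 1 ∨ s j k = -1 := by
    intro j k
    simp only [hsd]
    split_ifs
    · exact Or.inl rfl
    · exact Or.inr rfl
  have hsc : ∀ j k, |c (k + j)| = s j k * c (k + j) := by
    intro j k
    simp only [hsd]
    split_ifs with h
    · rw [abs_of_nonneg h, one_mul]
    · rw [abs_of_neg (not_le.1 h)]; ring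
  set g : ℕ → ℝ := G4 K s p with hg
  have hgabs : ∀ n, |g n| ≤ 4 := G4_abs hp hs hK
  have hT : (∑ k ∈ K, ∑ j ∈ range 4, |c (k + j)|) / K.card = ∑ n ∈ Ico Y X, p n * g n := by
    have h1 : ∀ k ∈ K, ∑ j ∈ range 4, |c (k + j)| =
        ∑ n ∈ Ico Y X, ∑ j ∈ range 4, p n * (s j k * p (n + j + k)) := by
      intro k _
      rw [sum_comm]
      refine sum_congr rfl fun j _ => ?_
      rw [hsc, hc, mul_sum]
      refine sum_congr rfl fun n _ => ?_
      have : n + (k + j) = n + j + k := by ring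
      rw [this]
      ring
    rw [sum_congr rfl h1, sum_comm, sum_div]
    refine sum_congr rfl fun n _ => ?_
    rw [hg]
    unfold G4 G
    rw [sum_comm, ← sum_div, mul_div_assoc', mul_sum]
    congr 1
    refine sum_congr rfl fun j _ => ?_
    rw [mul_sum]
  -- the rare large values
  set B : ℝ := 3 / 2 + η with hB
  have hB0 : 0 < B := by positivity
  have hB32 : 3 / 2 ≤ B := by rw [hB]; linarith
  have hB1 : 1 ≤ B := by linarith
  have hB52 : B ≤ 5 / 2 := by rw [hB]; linarith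
  set χ : ℕ → ℝ := fun n => if B < |g n| then 1 else 0 with hχ
  have hχ0 : ∀ n, 0 ≤ χ n := by
    intro n
    simp only [hχ]
    split_ifs <;> norm_num
  have hrare := G4_rare hp hs hK hKN hX (Y := Y) D hD η
  set A := (Ico Y (X + 3)).filter (fun n => 3 / 2 + η < |G4 K s p n|) with hA
  have hχsum : ∀ i : ℕ, i ≤ 3 → ∑ n ∈ Ico Y X, χ (n + i) ≤ A.card := by
    intro i hi
    have h1 : ∑ n ∈ Ico Y X, χ (n + i) = ∑ n ∈ Ico (Y + i) (X + i), χ n := by
      rw [← map_add_right_Ico, sum_map]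
      rfl
    rw [h1]
    have h2 : ∑ n ∈ Ico (Y + i) (X + i), χ n ≤ ∑ n ∈ Ico Y (X + 3), χ n := by
      refine sum_le_sum_of_subset_of_nonneg ?_ fun n _ _ => hχ0 n
      intro n hn
      rw [mem_Ico] at hn ⊢
      omega
    refine h2.trans (le_of_eq ?_)
    rw [hA]
    simp only [hχ]
    rw [← sum_filter, sum_const, nsmul_eq_mul, mul_one]
  have hAle : (A.card : ℝ) ≤ 7 / 8 * (D * Γ) / η := by
    rw [le_div_iff₀ hη, mul_comm]
    refine hrare.trans (le_of_eq ?_)
    rw [hΓ]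
    ring
  -- the function
  set f : ℕ → ℝ := fun n => p n * g n / B with hf
  have hfabs : ∀ n, |f n| ≤ 8 / 3 := by
    intro n
    simp only [hf]
    rw [abs_div, abs_mul, abs_of_pos hB0, div_le_iff₀ hB0]
    have h1 := hp_abs hp n
    have h2 := hgabs n
    calc |p n| * |g n| ≤ 1 * 4 := mul_le_mul h1 h2 (abs_nonneg _) (by norm_num)
      _ ≤ 8 / 3 * B := by linarith
  have hfgood : ∀ n, χ n = 0 → |f n| ≤ 1 := by
    intro n hn
    have h1 : |g n| ≤ B := by
      by_contra hcon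
      rw [not_le] at hcon
      simp only [hχ] at hn
      rw [if_pos hcon] at hn
      norm_num at hn
    simp only [hf]
    rw [abs_div, abs_mul, abs_of_pos hB0, div_le_one hB0]
    calc |p n| * |g n| ≤ 1 * B := mul_le_mul (hp_abs hp n) h1 (abs_nonneg _) (by norm_num)
      _ = B := one_mul _
  have hχ01 : ∀ n, χ n = 0 ∨ χ n = 1 := by
    intro n
    simp only [hχ]
    split_ifs
    · exact Or.inr rfl
    · exact Or.inl rfl
  have hpt : ∀ n ∈ Ico Y X, f n + f (n + 1) + f (n + 2) + f (n + 3) ≤ 3 / 2 +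
      (f (n + 0) * f (n + 1) + f (n + 0) * f (n + 2) + f (n + 0) * f (n + 3) + f (n + 1) * f (n + 2) +
        f (n + 1) * f (n + 3) + f (n + 2) * f (n + 3)) / 2 -
      (f (n + 0) * f (n + 1) * f (n + 2) * f (n + 3)) / 2 +
      60 * (χ (n + 0) + χ (n + 1) + χ (n + 2) + χ (n + 3)) := by
    intro n _
    rw [add_zero]
    by_cases hall : χ n = 0 ∧ χ (n + 1) = 0 ∧ χ (n + 2) = 0 ∧ χ (n + 3) = 0
    · obtain ⟨q0, q1, q2, q3⟩ := hall
      rw [q0, q1, q2, q3]
      have := poly_ineq _ _ _ _ (hfgood n q0) (hfgood _ q1) (hfgood _ q2) (hfgood _ q3)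
      linarith
    · have h1 := poly_ineq' _ _ _ _ (hfabs n) (hfabs (n + 1)) (hfabs (n + 2)) (hfabs (n + 3))
      have h2 : 1 ≤ χ n + χ (n + 1) + χ (n + 2) + χ (n + 3) := by
        have z0 := hχ0 n
        have z1 := hχ0 (n + 1)
        have z2 := hχ0 (n + 2)
        have z3 := hχ0 (n + 3)
        rcases hχ01 n with q0 | q0
        · rcases hχ01 (n + 1) with q1 | q1
          · rcases hχ01 (n + 2) with q2 | q2
            · rcases hχ01 (n + 3) with q3 | q3
              · exact absurd ⟨q0, q1, q2, q3⟩ hall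
              · linarith
            · linarith
          · linarith
        · linarith
      linarith
  -- the cross terms
  have hmul : ∀ (i : ℕ) (F : ℕ → ℝ) (D' : ℝ),
      (∀ t, ‖hat (Ico Y X) (fun n => ((F n : ℝ) : ℂ)) t‖ ≤ D') → ∀ t,
      ‖hat (Ico Y X) (fun n => ((F n * g (n + i) : ℝ) : ℂ)) t‖ ≤ D' * Γ := by
    intro i F D' hF t
    exact mul_G4 hp hs hK hKN hXN i F D' hF t
  have hpair : ∀ i j : ℕ, i < j → j ≤ 3 → ∑ n ∈ Ico Y X, f (n + i) * f (n + j) ≤ D * Γ ^ 4 := by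
    intro i j hij hj
    have h1 := hmul j _ _ (hmul i _ _ (fun t => hD.pair i j hij hj t Y X (by omega))) 0
    rw [hat_zero_real] at h1
    have h2 : ∑ n ∈ Ico Y X, f (n + i) * f (n + j) =
        (∑ n ∈ Ico Y X, p (n + i) * p (n + j) * g (n + i) * g (n + j)) / B ^ 2 := by
      rw [sum_div]
      refine sum_congr rfl fun n _ => ?_
      simp only [hf]
      field_simp
    rw [h2]
    refine (le_abs_self _).trans ?_
    rw [abs_div, abs_of_pos (by positivity : (0 : ℝ) < B ^ 2)]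
    refine (div_le_self (abs_nonneg _) (one_le_pow₀ hB1)).trans (h1.trans ?_)
    have : Γ * Γ ≤ Γ ^ 4 := by
      rw [← pow_two]
      exact pow_le_pow_right₀ hΓ1 (by norm_num)
    calc D * Γ * Γ = D * (Γ * Γ) := by ring
      _ ≤ D * Γ ^ 4 := mul_le_mul_of_nonneg_left this hD0
  have hfour : -(D * Γ ^ 4) ≤ ∑ n ∈ Ico Y X, f (n + 0) * f (n + 1) * f (n + 2) * f (n + 3) := by
    have h1 := hmul 3 _ _ (hmul 2 _ _ (hmul 1 _ _ (hmul 0 _ _
      (fun t => (hD.four.mono (by omega : X ≤ 2 * N + 1 + 3)) t Y X le_rfl)))) 0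
    rw [hat_zero_real] at h1
    have h2 : ∑ n ∈ Ico Y X, f (n + 0) * f (n + 1) * f (n + 2) * f (n + 3) =
        (∑ n ∈ Ico Y X, p n * p (n + 1) * p (n + 2) * p (n + 3) * g (n + 0) * g (n + 1) * g (n + 2) *
          g (n + 3)) / B ^ 4 := by
      rw [sum_div]
      refine sum_congr rfl fun n _ => ?_
      simp only [hf]
      rw [add_zero]
      field_simp
    rw [h2]
    refine neg_le_of_abs_le ?_
    rw [abs_div, abs_of_pos (by positivity : (0 : ℝ) < B ^ 4)]
    refine (div_le_self (abs_nonneg _) (one_le_pow₀ hB1)).trans (h1.trans (le_of_eq ?_))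
    ring
  have hcard : ((Ico Y X).card : ℝ) = (X : ℝ) - Y := by
    rw [Nat.card_Ico, Nat.cast_sub hYX]
  have hsum : ∑ n ∈ Ico Y X, (f n + f (n + 1) + f (n + 2) + f (n + 3)) ≤
      3 / 2 * ((X : ℝ) - Y) + 7 / 2 * (D * Γ ^ 4) + 240 * A.card := by
    refine (sum_le_sum hpt).trans ?_
    rw [sum_add_distrib, sum_sub_distrib, sum_add_distrib, ← sum_div, ← sum_div, ← sum_div, sum_add_distrib,
      sum_add_distrib, sum_add_distrib, sum_add_distrib, sum_add_distrib, ← mul_sum, sum_add_distrib,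
      sum_add_distrib, sum_add_distrib, sum_const, nsmul_eq_mul, hcard]
    have a1 := hpair 0 1 (by norm_num) (by norm_num)
    have a2 := hpair 0 2 (by norm_num) (by norm_num)
    have a3 := hpair 0 3 (by norm_num) (by norm_num)
    have a4 := hpair 1 2 (by norm_num) (by norm_num)
    have a5 := hpair 1 3 (by norm_num) (by norm_num)
    have a6 := hpair 2 3 (by norm_num) (by norm_num)
    have b0 := hχsum 0 (by norm_num)
    have b1 := hχsum 1 (by norm_num)
    have b2 := hχsum 2 (by norm_num)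
    have b3 := hχsum 3 (by norm_num)
    linarith
  have h4 := sum_four f (8 / 3) hfabs (by norm_num) Y X
  have hfsum : ∑ n ∈ Ico Y X, f n = (∑ n ∈ Ico Y X, p n * g n) / B := by
    rw [sum_div]
  rw [hT]
  rw [hfsum] at h4
  have hΓ4 : Γ ≤ Γ ^ 4 := by
    calc Γ = Γ ^ 1 := (pow_one _).symm
      _ ≤ Γ ^ 4 := pow_le_pow_right₀ hΓ1 (by norm_num)
  have hAle' : (A.card : ℝ) ≤ 7 / 8 * (D * Γ ^ 4) / η := by
    refine hAle.trans ?_
    have : D * Γ ≤ D * Γ ^ 4 := mul_le_mul_of_nonneg_left hΓ4 hD0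
    apply div_le_div_of_nonneg_right _ hη.le
    linarith
  have hLen : 0 ≤ (X : ℝ) - Y := by
    rw [sub_nonneg]
    exact_mod_cast hYX
  set Z : ℝ := D * Γ ^ 4 with hZ
  have hZ0 : 0 ≤ Z := by positivity
  set u : ℝ := ∑ n ∈ Ico Y X, p n * g n with hu
  have h5 : 4 * (u / B) ≤ 3 / 2 * ((X : ℝ) - Y) + 7 / 2 * Z + 240 * (7 / 8 * Z / η) + 12 * (8 / 3) := by
    linarith
  have h6 : u ≤ B / 4 * (3 / 2 * ((X : ℝ) - Y) + 7 / 2 * Z + 240 * (7 / 8 * Z / η) + 12 * (8 / 3)) := by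
    have h7 : u = B / 4 * (4 * (u / B)) := by field_simp
    rw [h7]
    exact mul_le_mul_of_nonneg_left h5 (by positivity)
  have h8 : B / 4 * (7 / 2 * Z + 240 * (7 / 8 * Z / η) + 12 * (8 / 3)) ≤
      5 / 8 * (7 / 2 * Z + 240 * (7 / 8 * Z / η) + 12 * (8 / 3)) := by
    apply mul_le_mul_of_nonneg_right (by linarith)
    positivity
  have h9 : B / 4 * (3 / 2 * ((X : ℝ) - Y)) = (9 / 16 + 3 / 8 * η) * ((X : ℝ) - Y) := by
    rw [hB]
    ring
  have h10 : 5 / 8 * (7 / 2 * Z + 240 * (7 / 8 * Z / η) + 12 * (8 / 3)) ≤ 20 + Z * (3 + 132 / η) := by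
    have e1 : 5 / 8 * (7 / 2 * Z + 240 * (7 / 8 * Z / η) + 12 * (8 / 3)) =
        20 + Z * (35 / 16 + (525 / 4) / η) := by
      field_simp
      ring
    rw [e1]
    have h11 : (525 / 4) / η ≤ 132 / η := by
      apply div_le_div_of_nonneg_right _ hη.le
      norm_num
    have : Z * (35 / 16 + (525 / 4) / η) ≤ Z * (3 + 132 / η) :=
      mul_le_mul_of_nonneg_left (by linarith) hZ0
    linarith
  linarith

end Pool.Agent.Helper87.Q
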